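import Mathlib

set_option autoImplicit false

open MeasureTheory Filter Topology Polynomial

namespace Pool.Agent.Work.MP_dd0251_mp

noncomputable section

section
variable {E : Type} [NormedAddCommGroup E] [InnerProductSpace ℂ E] [CompleteSpace E]

/-- Spectral measure of an operator for a vector. -/
def IsSpec (T : E →L[ℂ] E) (v : E) (ν : Measure ℝ) : Prop :=
  IsFiniteMeasure ν ∧ ∀ f : ℝ → ℝ, Continuous f →
    Integrable f ν ∧ ((∫ x, f x ∂ν : ℝ) : ℂ) = inner ℂ v (cfc f T v)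

lemma spec_bound [Nontrivial E] (T : E →L[ℂ] E) (x : ℝ) (hx : x ∈ spectrum ℝ T) : |x| ≤ ‖T‖ := by
  have h := spectrum.norm_le_norm_of_mem hx
  rwa [Real.norm_eq_abs] at h

lemma isSpec_of_moments [Nontrivial E] (T : E →L[ℂ] E) (hT : IsSelfAdjoint T) (v : E) (μ : Measure ℝ)
    [IsFiniteMeasure μ] (R : ℝ) (hR : μ (Set.Icc (-R) R)ᶜ = 0)
    (hmom : ∀ k : ℕ, ((∫ x, x ^ k ∂μ : ℝ) : ℂ) = inner ℂ v ((T ^ k) v)) : IsSpec T v μ := by
  have hint : ∀ f : ℝ → ℝ, Continuous f → Integrable f μ := by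
    intro f hf
    have h1 : IntegrableOn f (Set.Icc (-R) R) μ := hf.integrableOn_Icc
    have h2 : IntegrableOn f (Set.Icc (-R) R)ᶜ μ := by
      rw [IntegrableOn, Measure.restrict_eq_zero.2 hR]
      exact integrable_zero_measure
    rw [← integrableOn_univ, ← Set.union_compl_self (Set.Icc (-R) R)]
    exact h1.union h2
  have hpoly : ∀ p : ℝ[X], ((∫ x, p.eval x ∂μ : ℝ) : ℂ) = inner ℂ v (aeval T p v) := by
    intro p
    induction p using Polynomial.induction_on' with
    | add p q hp hq =>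
      have h1 : ∫ x, (p + q).eval x ∂μ = ∫ x, p.eval x ∂μ + ∫ x, q.eval x ∂μ := by
        rw [← integral_add (hint _ p.continuous) (hint _ q.continuous)]
        simp
      rw [h1, map_add, _root_.add_apply, inner_add_right, ← hp, ← hq]
      push_cast; ring
    | monomial n a =>
      have h1 : ∫ x, (Polynomial.monomial n a).eval x ∂μ = a * ∫ x, x ^ n ∂μ := by
        rw [← integral_const_mul]
        simp
      rw [h1]
      push_cast
      rw [hmom, aeval_monomial, Algebra.algebraMap_eq_smul_one, smul_mul_assoc, one_mul]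
      have h2 : (a • T ^ n) v = (a : ℂ) • ((T ^ n) v) := by
        rfl
      rw [h2, inner_smul_right]
  refine ⟨inferInstance, fun f hf => ⟨hint f hf, ?_⟩⟩
  apply eq_of_forall_dist_le
  intro ε hε
  set M : ℝ := μ.real Set.univ + ‖v‖ ^ 2 + 1 with hM
  have hMpos : 0 < M := by
    have : 0 ≤ μ.real Set.univ := measureReal_nonneg
    positivity
  obtain ⟨p, hp⟩ := exists_polynomial_near_of_continuousOn (-(max R ‖T‖)) (max R ‖T‖) f
    hf.continuousOn (ε / M) (by positivity)
  have h1 : |∫ x, f x ∂μ - ∫ x, p.eval x ∂μ| ≤ ε / M * μ.real Set.univ := by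
    rw [← integral_sub (hint f hf) (hint _ p.continuous), ← Real.norm_eq_abs]
    apply norm_integral_le_of_norm_le_const
    have h3 : ∀ᵐ x ∂μ, x ∈ Set.Icc (-R) R := by
      rw [ae_iff]; exact hR
    filter_upwards [h3] with x hx
    rw [Real.norm_eq_abs, abs_sub_comm]
    exact (hp x ⟨by linarith [hx.1, le_max_left R ‖T‖], hx.2.trans (le_max_left _ _)⟩).le
  have h2 : ‖cfc f T - aeval T p‖ ≤ ε / M := by
    have e : aeval T p = cfc (fun x => p.eval x) T := (cfc_polynomial p T hT).symm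
    rw [e, ← cfc_sub f (fun x => p.eval x) T hf.continuousOn p.continuous.continuousOn]
    apply norm_cfc_le (by positivity)
    intro x hx
    rw [Real.norm_eq_abs, abs_sub_comm]
    have h4 := spec_bound T x hx
    rw [abs_le] at h4
    exact (hp x ⟨by linarith [h4.1, le_max_right R ‖T‖], h4.2.trans (le_max_right _ _)⟩).le
  rw [dist_eq_norm]
  have h5 : ((∫ x, f x ∂μ : ℝ) : ℂ) - inner ℂ v (cfc f T v) =
      ((∫ x, f x ∂μ - ∫ x, p.eval x ∂μ : ℝ) : ℂ) - inner ℂ v ((cfc f T - aeval T p) v) := by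
    rw [_root_.sub_apply, inner_sub_right, ← hpoly]
    push_cast; ring
  rw [h5]
  calc ‖((∫ x, f x ∂μ - ∫ x, p.eval x ∂μ : ℝ) : ℂ) - inner ℂ v ((cfc f T - aeval T p) v)‖
      ≤ ‖((∫ x, f x ∂μ - ∫ x, p.eval x ∂μ : ℝ) : ℂ)‖ + ‖(inner ℂ v ((cfc f T - aeval T p) v) : ℂ)‖ :=
        norm_sub_le _ _
    _ ≤ ε / M * μ.real Set.univ + ‖v‖ * (ε / M * ‖v‖) := by
        gcongr
        · rw [Complex.norm_real]; exact h1
        · refine (norm_inner_le_norm v _).trans ?_
          gcongr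
          exact (ContinuousLinearMap.le_opNorm _ _).trans (by gcongr)
    _ = ε * ((μ.real Set.univ + ‖v‖ ^ 2) / M) := by
        field_simp
    _ ≤ ε * 1 := by
        gcongr
        rw [div_le_one hMpos]
        linarith
    _ = ε := mul_one _

/-- moments of polynomials with respect to a spectral measure -/
lemma IsSpec.poly {T : E →L[ℂ] E} (hT : IsSelfAdjoint T) {v : E} {ν : Measure ℝ} (h : IsSpec T v ν)
    (p : ℝ[X]) : ((∫ x, p.eval x ∂ν : ℝ) : ℂ) = inner ℂ v (aeval T p v) := by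
  rw [(h.2 _ p.continuous).2, cfc_polynomial p T hT]

/-- uniqueness of the spectral measure -/
lemma IsSpec.unique {T : E →L[ℂ] E} {v : E} {ν ν' : Measure ℝ} (h : IsSpec T v ν)
    (h' : IsSpec T v ν') : ν = ν' := by
  have := h.1
  have := h'.1
  apply ext_of_forall_integral_eq_of_IsFiniteMeasure
  intro f
  have h1 := (h.2 f f.continuous).2
  have h2 := (h'.2 f f.continuous).2
  have h3 := h1.trans h2.symm
  exact_mod_cast h3

/-- A real polynomial in an operator applied to a vector. -/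
def pa (T : E →L[ℂ] E) (v : E) (p : ℝ[X]) : E := aeval T p v

omit [CompleteSpace E] in
lemma pa_C (T : E →L[ℂ] E) (v : E) (c : ℝ) : pa T v (C c) = (c : ℂ) • v := by
  unfold pa
  rw [aeval_C, Algebra.algebraMap_eq_smul_one]
  rfl

omit [CompleteSpace E] in
lemma pa_sub (T : E →L[ℂ] E) (v : E) (p q : ℝ[X]) : pa T v (p - q) = pa T v p - pa T v q := by
  unfold pa
  rw [map_sub, _root_.sub_apply]

omit [CompleteSpace E] in
lemma pa_C_mul (T : E →L[ℂ] E) (v : E) (c : ℝ) (p : ℝ[X]) :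
    pa T v (C c * p) = (c : ℂ) • pa T v p := by
  unfold pa
  rw [map_mul, aeval_C, Algebra.algebraMap_eq_smul_one, smul_mul_assoc, one_mul]
  rfl

omit [CompleteSpace E] in
lemma pa_X_mul (T : E →L[ℂ] E) (v : E) (p : ℝ[X]) : pa T v (X * p) = T (pa T v p) := by
  unfold pa
  rw [map_mul, aeval_X]
  rfl

lemma IsSpec.sq {T : E →L[ℂ] E} (hT : IsSelfAdjoint T) {v : E} {ν : Measure ℝ} (h : IsSpec T v ν)
    (p : ℝ[X]) : ∫ x, (p.eval x) ^ 2 ∂ν = ‖pa T v p‖ ^ 2 := by
  have h1 := h.poly hT (p * p)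
  have hs : IsSelfAdjoint (aeval T p) := by
    rw [← cfc_polynomial p T hT]
    exact IsSelfAdjoint.cfc
  have h2 : inner ℂ v (aeval T (p * p) v) = inner ℂ (pa T v p) (pa T v p) := by
    rw [map_mul]
    show inner ℂ v ((aeval T p) ((aeval T p) v)) = _
    rw [← ContinuousLinearMap.adjoint_inner_left]
    rw [ContinuousLinearMap.isSelfAdjoint_iff'] at hs
    rw [hs]
    rfl
  rw [h2, inner_self_eq_norm_sq_to_K] at h1
  have h3 : ∫ x, (p.eval x) ^ 2 ∂ν = ∫ x, (p * p).eval x ∂ν := by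
    congr 1; ext x; rw [eval_mul]; ring
  rw [h3]
  apply Complex.ofReal_injective
  rw [h1]
  simp

end

end

end Pool.Agent.Work.MP_dd0251_mp
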