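import Mathlib

namespace Pool.Agent.Work.MP_dd0251_mp

noncomputable section

/-- The quadratic form preserved by one step of the free recursion at local energy `x`. -/
def Qf (x u v : ℝ) : ℝ := u ^ 2 - x * u * v + v ^ 2

def Gf (x u v : ℝ) : ℝ := 2 * u * v - x * u ^ 2

def Rf (ε x u v : ℝ) : ℝ := Qf x u v + ε * (Gf x u v / (4 - x ^ 2))

def Zf (ε x u v : ℝ) : ℝ := (Rf ε x u v) ^ 2 / (4 - x ^ 2)

lemma Qf_v (x u v : ℝ) : (4 - x ^ 2) * v ^ 2 ≤ 4 * Qf x u v := by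
  unfold Qf; nlinarith [sq_nonneg (2 * u - x * v)]

lemma Qf_u (x u v : ℝ) : (4 - x ^ 2) * u ^ 2 ≤ 4 * Qf x u v := by
  unfold Qf; nlinarith [sq_nonneg (2 * v - x * u)]

lemma Qf_u' (x u v : ℝ) : (4 - x ^ 2) * (x * u - v) ^ 2 ≤ 4 * Qf x u v := by
  unfold Qf; nlinarith [sq_nonneg (2 * u - x * (x * u - v))]

lemma Gf_bound (x u v : ℝ) (hx0 : 0 ≤ x) (hx2 : x ≤ 2) :
    |Gf x u v| ≤ 3 * u ^ 2 + v ^ 2 := by
  unfold Gf
  rw [abs_le]
  constructor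
  · nlinarith [sq_nonneg (u + v), mul_nonneg (sub_nonneg.2 hx2) (sq_nonneg u)]
  · nlinarith [sq_nonneg (u - v), mul_nonneg hx0 (sq_nonneg u)]

/-- The basic identity behind the first order averaging. -/
lemma key_identity (ε x u v : ℝ) :
    (4 - x ^ 2) * ((x * u - v) * u) =
      x * Qf x u v + Gf (x + ε) (x * u - v) u + ε * (x * u - v) ^ 2 - Gf x u v := by
  unfold Qf Gf; ring

lemma Q_step (ε x u v : ℝ) :
    Qf (x + ε) (x * u - v) u = Qf x u v - ε * ((x * u - v) * u) := by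
  unfold Qf; ring

lemma R_step (ε x u v : ℝ) (hD : 4 - x ^ 2 ≠ 0) (hD' : 4 - (x + ε) ^ 2 ≠ 0) :
    Rf ε (x + ε) (x * u - v) u = Rf ε x u v * (1 - ε * x / (4 - x ^ 2)) +
      ε ^ 2 * (x * Gf x u v / (4 - x ^ 2) ^ 2 - (x * u - v) ^ 2 / (4 - x ^ 2)
        + (2 * x + ε) * Gf (x + ε) (x * u - v) u / ((4 - x ^ 2) * (4 - (x + ε) ^ 2))) := by
  have h1 := key_identity ε x u v
  have h2 : (x * u - v) * u = (x * Qf x u v + Gf (x + ε) (x * u - v) u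
      + ε * (x * u - v) ^ 2 - Gf x u v) / (4 - x ^ 2) := by
    rw [eq_div_iff hD]; linarith
  unfold Rf
  rw [Q_step, h2]
  field_simp
  ring

/-- Bound for `R - Q`. -/
lemma R_close {ε κ x u v : ℝ} (hκ : 0 < κ) (hκ1 : κ ≤ 1) (hε : 0 < ε) (hεκ : ε ≤ κ ^ 4 / 1000000)
    (hx0 : 0 ≤ x) (hx2 : x ≤ 2) (hD : κ ≤ 4 - x ^ 2) :
    |Rf ε x u v - Qf x u v| ≤ (1 / 1000) * Qf x u v := by
  have hDpos : 0 < 4 - x ^ 2 := lt_of_lt_of_le hκ hD
  have hu := Qf_u x u v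
  have hv := Qf_v x u v
  have hQ : 0 ≤ Qf x u v := by nlinarith [mul_nonneg hDpos.le (sq_nonneg v)]
  have hG := Gf_bound x u v hx0 hx2
  have hDG : (4 - x ^ 2) * |Gf x u v| ≤ 16 * Qf x u v := by
    calc (4 - x ^ 2) * |Gf x u v| ≤ (4 - x ^ 2) * (3 * u ^ 2 + v ^ 2) :=
          mul_le_mul_of_nonneg_left hG hDpos.le
      _ = 3 * ((4 - x ^ 2) * u ^ 2) + (4 - x ^ 2) * v ^ 2 := by ring
      _ ≤ 16 * Qf x u v := by linarith
  have h1 : Rf ε x u v - Qf x u v = ε * (Gf x u v / (4 - x ^ 2)) := by unfold Rf; ring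
  rw [h1, abs_mul, abs_of_pos hε, abs_div, abs_of_pos hDpos]
  have h2 : |Gf x u v| / (4 - x ^ 2) ≤ 16 * Qf x u v / κ ^ 2 := by
    rw [div_le_div_iff₀ hDpos (by positivity)]
    have : |Gf x u v| * κ ^ 2 ≤ |Gf x u v| * (4 - x ^ 2) ^ 2 := by
      apply mul_le_mul_of_nonneg_left _ (abs_nonneg _)
      exact pow_le_pow_left₀ hκ.le hD 2
    calc |Gf x u v| * κ ^ 2 ≤ |Gf x u v| * (4 - x ^ 2) ^ 2 := this
      _ = ((4 - x ^ 2) * |Gf x u v|) * (4 - x ^ 2) := by ring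
      _ ≤ (16 * Qf x u v) * (4 - x ^ 2) := mul_le_mul_of_nonneg_right hDG hDpos.le
  have hκ4 : κ ^ 4 ≤ κ ^ 2 := by
    have : κ ^ 2 ≤ 1 := by nlinarith
    nlinarith [sq_nonneg κ]
  calc ε * (|Gf x u v| / (4 - x ^ 2)) ≤ ε * (16 * Qf x u v / κ ^ 2) :=
        mul_le_mul_of_nonneg_left h2 hε.le
    _ ≤ (κ ^ 4 / 1000000) * (16 * Qf x u v / κ ^ 2) := by
        apply mul_le_mul_of_nonneg_right hεκ; positivity
    _ ≤ (κ ^ 2 / 1000000) * (16 * Qf x u v / κ ^ 2) := by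
        apply mul_le_mul_of_nonneg_right (by linarith); positivity
    _ = (16 / 1000000) * Qf x u v := by field_simp
    _ ≤ (1 / 1000) * Qf x u v := by nlinarith

lemma Z_step {ε κ x u v : ℝ} (hκ : 0 < κ) (hκ1 : κ ≤ 1) (hε : 0 < ε) (hεκ : ε ≤ κ ^ 4 / 1000000)
    (hx0 : 0 ≤ x) (hx2 : x + ε ≤ 2) (hD' : κ ≤ 4 - (x + ε) ^ 2) :
    |Zf ε (x + ε) (x * u - v) u - Zf ε x u v| ≤ (1000 / κ ^ 4) * ε ^ 2 * Zf ε x u v := by
  have hx2' : x ≤ 2 := by linarith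
  have hD : κ ≤ 4 - x ^ 2 := by nlinarith
  have hDpos : 0 < 4 - x ^ 2 := lt_of_lt_of_le hκ hD
  have hDpos' : 0 < 4 - (x + ε) ^ 2 := lt_of_lt_of_le hκ hD'
  have hD4 : 4 - x ^ 2 ≤ 4 := by nlinarith [sq_nonneg x]
  have hu := Qf_u x u v
  have hv := Qf_v x u v
  have hu' := Qf_u' x u v
  have hQ : 0 ≤ Qf x u v := by nlinarith [mul_nonneg hDpos.le (sq_nonneg v)]
  have hκ2 : κ ^ 2 ≤ 1 := by nlinarith
  have hκ4 : κ ^ 4 ≤ 1 := by nlinarith [sq_nonneg κ]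
  have hε1 : ε ≤ 1 / 1000000 := by linarith
  have hG := Gf_bound x u v hx0 hx2'
  have hG' := Gf_bound (x + ε) (x * u - v) u (by linarith) hx2
  have hclose := R_close (u := u) (v := v) hκ hκ1 hε hεκ hx0 hx2' hD
  set Q := Qf x u v with hQdef
  set R := Rf ε x u v with hRdef
  set D := 4 - x ^ 2 with hDdef
  set D' := 4 - (x + ε) ^ 2 with hD'def
  set G := Gf x u v with hGdef
  set G' := Gf (x + ε) (x * u - v) u with hG'def
  have hR0 : 0 ≤ R := by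
    rw [abs_le] at hclose; linarith
  have hQR : Q ≤ 1.01 * R := by
    rw [abs_le] at hclose; linarith
  have hDG : D * |G| ≤ 16 * Q := by
    calc D * |G| ≤ D * (3 * u ^ 2 + v ^ 2) := mul_le_mul_of_nonneg_left hG hDpos.le
      _ = 3 * (D * u ^ 2) + D * v ^ 2 := by ring
      _ ≤ 16 * Q := by linarith
  have hDG' : D * |G'| ≤ 16 * Q := by
    calc D * |G'| ≤ D * (3 * (x * u - v) ^ 2 + u ^ 2) := mul_le_mul_of_nonneg_left hG' hDpos.le
      _ = 3 * (D * (x * u - v) ^ 2) + D * u ^ 2 := by ring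
      _ ≤ 16 * Q := by linarith
  -- the error term
  set e := x * G / D ^ 2 - (x * u - v) ^ 2 / D + (2 * x + ε) * G' / (D * D') with he
  have hstep : Rf ε (x + ε) (x * u - v) u = R * (1 - ε * x / D) + ε ^ 2 * e :=
    R_step ε x u v hDpos.ne' hDpos'.ne'
  have hGκ : |G| ≤ 16 * Q / κ := by
    rw [le_div_iff₀ hκ]
    calc |G| * κ ≤ |G| * D := mul_le_mul_of_nonneg_left hD (abs_nonneg _)
      _ = D * |G| := by ring
      _ ≤ 16 * Q := hDG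
  have hGκ' : |G'| ≤ 16 * Q / κ := by
    rw [le_div_iff₀ hκ]
    calc |G'| * κ ≤ |G'| * D := mul_le_mul_of_nonneg_left hD (abs_nonneg _)
      _ = D * |G'| := by ring
      _ ≤ 16 * Q := hDG'
  have huκ : (x * u - v) ^ 2 ≤ 4 * Q / κ := by
    rw [le_div_iff₀ hκ]
    calc (x * u - v) ^ 2 * κ ≤ (x * u - v) ^ 2 * D := mul_le_mul_of_nonneg_left hD (sq_nonneg _)
      _ = D * (x * u - v) ^ 2 := by ring
      _ ≤ 4 * Q := hu'
  have hinvD : 1 / D ≤ 1 / κ := one_div_le_one_div_of_le hκ hD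
  have hinvD' : 1 / D' ≤ 1 / κ := one_div_le_one_div_of_le hκ hD'
  have hinvD0 : 0 < 1 / D := by positivity
  have hinvD0' : 0 < 1 / D' := by positivity
  have hinvκ0 : 0 < 1 / κ := by positivity
  have t1 : |x * G / D ^ 2| ≤ 32 * Q / κ ^ 3 := by
    have : x * G / D ^ 2 = x * G * (1 / D) * (1 / D) := by field_simp
    rw [this, abs_mul, abs_mul, abs_mul, abs_of_nonneg hx0, abs_of_pos hinvD0]
    calc x * |G| * (1 / D) * (1 / D) ≤ 2 * (16 * Q / κ) * (1 / κ) * (1 / κ) := by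
          gcongr
      _ = 32 * Q / κ ^ 3 := by field_simp; ring
  have t2 : |(x * u - v) ^ 2 / D| ≤ 4 * Q / κ ^ 2 := by
    have : (x * u - v) ^ 2 / D = (x * u - v) ^ 2 * (1 / D) := by field_simp
    rw [this, abs_mul, abs_of_nonneg (sq_nonneg _), abs_of_pos hinvD0]
    calc (x * u - v) ^ 2 * (1 / D) ≤ (4 * Q / κ) * (1 / κ) := by gcongr
      _ = 4 * Q / κ ^ 2 := by field_simp
  have t3 : |(2 * x + ε) * G' / (D * D')| ≤ 80 * Q / κ ^ 3 := by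
    have : (2 * x + ε) * G' / (D * D') = (2 * x + ε) * G' * (1 / D) * (1 / D') := by
      field_simp
    rw [this, abs_mul, abs_mul, abs_mul, abs_of_nonneg (by linarith : 0 ≤ 2 * x + ε),
      abs_of_pos hinvD0, abs_of_pos hinvD0']
    calc (2 * x + ε) * |G'| * (1 / D) * (1 / D') ≤ 5 * (16 * Q / κ) * (1 / κ) * (1 / κ) := by
          gcongr
          linarith
      _ = 80 * Q / κ ^ 3 := by field_simp; ring
  have hκ32 : 4 * Q / κ ^ 2 ≤ 4 * Q / κ ^ 3 := by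
    apply div_le_div_of_nonneg_left (by positivity) (by positivity)
    nlinarith [sq_nonneg κ]
  have he_bound : |e| ≤ 120 * R / κ ^ 3 := by
    calc |e| ≤ |x * G / D ^ 2| + |(x * u - v) ^ 2 / D| + |(2 * x + ε) * G' / (D * D')| := by
          rw [he]
          refine (abs_add_le _ _).trans ?_
          gcongr
          exact abs_sub _ _
      _ ≤ 32 * Q / κ ^ 3 + 4 * Q / κ ^ 3 + 80 * Q / κ ^ 3 := by linarith
      _ = 116 * Q / κ ^ 3 := by ring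
      _ ≤ 116 * (1.01 * R) / κ ^ 3 := by gcongr
      _ ≤ 120 * R / κ ^ 3 := by
          apply div_le_div_of_nonneg_right _ (by positivity)
          linarith
  -- final estimate
  have hZ : Zf ε x u v = R ^ 2 / D := rfl
  have hZ' : Zf ε (x + ε) (x * u - v) u = (R * (1 - ε * x / D) + ε ^ 2 * e) ^ 2 / D' := by
    unfold Zf; rw [hstep]
  rw [hZ, hZ']
  have hDD : D' = D - 2 * ε * x - ε ^ 2 := by rw [hD'def, hDdef]; ring
  have hmain : (R * (1 - ε * x / D) + ε ^ 2 * e) ^ 2 / D' - R ^ 2 / D =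
      (1 / D') * (R ^ 2 * (ε ^ 2 * x ^ 2 / D ^ 2 + ε ^ 2 / D)
        + 2 * R * (1 - ε * x / D) * (ε ^ 2 * e) + ε ^ 4 * e ^ 2) := by
    have hDD2 : D' / D = 1 - 2 * ε * x / D - ε ^ 2 / D := by
      rw [hDD]; field_simp
    have h9 : (R * (1 - ε * x / D) + ε ^ 2 * e) ^ 2 / D' - R ^ 2 / D =
        (1 / D') * ((R * (1 - ε * x / D) + ε ^ 2 * e) ^ 2 - R ^ 2 * (D' / D)) := by
      field_simp
    rw [h9, hDD2]
    congr 1
    field_simp
    ring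
  rw [hmain, abs_mul, abs_of_pos hinvD0']
  have hεx : 0 ≤ ε * x / D := by positivity
  have hεx1 : ε * x / D ≤ 1 := by
    rw [div_le_one hDpos]
    have : ε ≤ κ := by nlinarith [pow_pos hκ 3, pow_le_one₀ hκ.le hκ1 (n := 3)]
    have : ε * x ≤ ε * 2 := by gcongr
    have h3 : ε * 2 ≤ κ := by
      have : κ ^ 4 ≤ κ := by
        have : κ ^ 3 ≤ 1 := pow_le_one₀ hκ.le hκ1
        nlinarith
      linarith
    linarith
  have b1 : |R ^ 2 * (ε ^ 2 * x ^ 2 / D ^ 2 + ε ^ 2 / D)| ≤ R ^ 2 * ε ^ 2 * (5 / κ ^ 3) := by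
    rw [abs_of_nonneg (by positivity)]
    have : R ^ 2 * (ε ^ 2 * x ^ 2 / D ^ 2 + ε ^ 2 / D)
        = R ^ 2 * ε ^ 2 * (x ^ 2 * (1 / D) * (1 / D) + 1 / D) := by
      field_simp
    rw [this]
    have h5 : x ^ 2 * (1 / D) * (1 / D) + 1 / D ≤ 5 / κ ^ 3 := by
      calc x ^ 2 * (1 / D) * (1 / D) + 1 / D ≤ 2 ^ 2 * (1 / κ) * (1 / κ) + 1 / κ := by
            gcongr
        _ = (4 * κ + κ ^ 2) / κ ^ 3 := by field_simp; ring
        _ ≤ 5 / κ ^ 3 := by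
            apply div_le_div_of_nonneg_right _ (by positivity)
            nlinarith
    gcongr
  have b2 : |2 * R * (1 - ε * x / D) * (ε ^ 2 * e)| ≤ R ^ 2 * ε ^ 2 * (240 / κ ^ 3) := by
    rw [abs_mul, abs_mul, abs_mul, abs_of_pos (by norm_num : (0:ℝ) < 2), abs_of_nonneg hR0,
      abs_of_nonneg (by linarith : 0 ≤ 1 - ε * x / D), abs_mul, abs_of_nonneg (sq_nonneg ε)]
    calc 2 * R * (1 - ε * x / D) * (ε ^ 2 * |e|)
        ≤ 2 * R * 1 * (ε ^ 2 * (120 * R / κ ^ 3)) := by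
          gcongr
          linarith
      _ = R ^ 2 * ε ^ 2 * (240 / κ ^ 3) := by ring
  have b3 : |ε ^ 4 * e ^ 2| ≤ R ^ 2 * ε ^ 2 * (1 / κ ^ 3) := by
    rw [abs_of_nonneg (by positivity)]
    have h6 : e ^ 2 ≤ (120 * R / κ ^ 3) ^ 2 := by
      rw [← sq_abs e]
      exact pow_le_pow_left₀ (abs_nonneg _) he_bound 2
    have h7 : ε ^ 2 * (14400 / κ ^ 6) ≤ 1 / κ ^ 3 := by
      have h8 : ε ^ 2 ≤ (κ ^ 4 / 1000000) ^ 2 := pow_le_pow_left₀ hε.le hεκ 2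
      calc ε ^ 2 * (14400 / κ ^ 6) ≤ (κ ^ 4 / 1000000) ^ 2 * (14400 / κ ^ 6) := by gcongr
        _ = (14400 / 1000000 ^ 2) * κ ^ 5 / κ ^ 3 := by field_simp
        _ ≤ 1 / κ ^ 3 := by
            apply div_le_div_of_nonneg_right _ (by positivity)
            have : κ ^ 5 ≤ 1 := pow_le_one₀ hκ.le hκ1
            nlinarith
    calc ε ^ 4 * e ^ 2 ≤ ε ^ 4 * (120 * R / κ ^ 3) ^ 2 := by gcongr
      _ = R ^ 2 * ε ^ 2 * (ε ^ 2 * (14400 / κ ^ 6)) := by ring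
      _ ≤ R ^ 2 * ε ^ 2 * (1 / κ ^ 3) := by gcongr
  calc 1 / D' * |R ^ 2 * (ε ^ 2 * x ^ 2 / D ^ 2 + ε ^ 2 / D)
        + 2 * R * (1 - ε * x / D) * (ε ^ 2 * e) + ε ^ 4 * e ^ 2|
      ≤ 1 / κ * (R ^ 2 * ε ^ 2 * (5 / κ ^ 3) + R ^ 2 * ε ^ 2 * (240 / κ ^ 3)
          + R ^ 2 * ε ^ 2 * (1 / κ ^ 3)) := by
        gcongr
        refine (abs_add_le _ _).trans ?_
        refine add_le_add ((abs_add_le _ _).trans (add_le_add b1 b2)) b3
    _ = 246 / κ ^ 4 * ε ^ 2 * R ^ 2 := by field_simp; ring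
    _ ≤ 1000 / κ ^ 4 * ε ^ 2 * (R ^ 2 / D) := by
        have : R ^ 2 / 4 ≤ R ^ 2 / D := by
          apply div_le_div_of_nonneg_left (by positivity) hDpos hD4
        calc 246 / κ ^ 4 * ε ^ 2 * R ^ 2 ≤ 1000 / κ ^ 4 * ε ^ 2 * (R ^ 2 / 4) := by
              have : 0 ≤ ε ^ 2 * R ^ 2 / κ ^ 4 := by positivity
              have e1 : 246 / κ ^ 4 * ε ^ 2 * R ^ 2 = 246 * (ε ^ 2 * R ^ 2 / κ ^ 4) := by ring
              have e2 : 1000 / κ ^ 4 * ε ^ 2 * (R ^ 2 / 4) = 250 * (ε ^ 2 * R ^ 2 / κ ^ 4) := by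
                ring
              rw [e1, e2]; linarith
          _ ≤ 1000 / κ ^ 4 * ε ^ 2 * (R ^ 2 / D) := by gcongr

end

end Pool.Agent.Work.MP_dd0251_mp
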