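import Mathlib
import Pool.Agent.Work.MP_dd0251_mp.Adiabatic

open MeasureTheory Polynomial Filter Topology

namespace Pool.Agent.Work.MP_dd0251_mp

noncomputable section

/-- State of the solution of the recursion `u_{n+1} = (E - b_n) u_n - u_{n-1}`. -/
def st (b : ℕ → ℝ) (E : ℝ) (s : ℝ × ℝ) : ℕ → ℝ × ℝ
  | 0 => s
  | n + 1 => ((E - b n) * (st b E s n).1 - (st b E s n).2, (st b E s n).1)

/-- Polynomial version of `st`. -/
def stP (b : ℕ → ℝ) (s : ℝ × ℝ) : ℕ → ℝ[X] × ℝ[X]
  | 0 => (C s.1, C s.2)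
  | n + 1 => ((X - C (b n)) * (stP b s n).1 - (stP b s n).2, (stP b s n).1)

lemma stP_eval (b : ℕ → ℝ) (E : ℝ) (s : ℝ × ℝ) (n : ℕ) :
    ((stP b s n).1.eval E, (stP b s n).2.eval E) = st b E s n := by
  induction n with
  | zero => simp [stP, st]
  | succ n ih =>
    have h1 : (stP b s n).1.eval E = (st b E s n).1 := congrArg Prod.fst ih
    have h2 : (stP b s n).2.eval E = (st b E s n).2 := congrArg Prod.snd ih
    simp [stP, st, h1, h2]

lemma stP_eval1 (b : ℕ → ℝ) (E : ℝ) (s : ℝ × ℝ) (n : ℕ) :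
    (stP b s n).1.eval E = (st b E s n).1 := congrArg Prod.fst (stP_eval b E s n)

lemma stP_eval2 (b : ℕ → ℝ) (E : ℝ) (s : ℝ × ℝ) (n : ℕ) :
    (stP b s n).2.eval E = (st b E s n).2 := congrArg Prod.snd (stP_eval b E s n)

lemma st_det (b : ℕ → ℝ) (E : ℝ) (s t : ℝ × ℝ) (n : ℕ) :
    (st b E s n).1 * (st b E t n).2 - (st b E t n).1 * (st b E s n).2 =
      s.1 * t.2 - t.1 * s.2 := by
  induction n with
  | zero => rfl
  | succ n ih =>
    simp only [st]
    rw [← ih]; ring

lemma st_congr {b b' : ℕ → ℝ} (E : ℝ) (s : ℝ × ℝ) (n : ℕ) (h : ∀ m < n, b m = b' m) :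
    st b E s n = st b' E s n := by
  induction n with
  | zero => rfl
  | succ n ih =>
    have := ih (fun m hm => h m (by omega))
    simp only [st, this, h n (by omega)]

lemma continuous_st1 (b : ℕ → ℝ) (s : ℝ × ℝ) (n : ℕ) : Continuous fun E => (st b E s n).1 := by
  have : (fun E => (st b E s n).1) = fun E => (stP b s n).1.eval E := by
    funext E; rw [stP_eval1]
  rw [this]; exact Polynomial.continuous _

lemma continuous_st2 (b : ℕ → ℝ) (s : ℝ × ℝ) (n : ℕ) : Continuous fun E => (st b E s n).2 := by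
  have : (fun E => (st b E s n).2) = fun E => (stP b s n).2.eval E := by
    funext E; rw [stP_eval2]
  rw [this]; exact Polynomial.continuous _

/-- In the hyperbolic region `x ≥ 4` every solution with `Q ≠ 0` blows up. -/
lemma blow_up {x : ℝ} (hx : 4 ≤ x) (f : ℕ → ℝ × ℝ)
    (hf : ∀ n, f (n + 1) = (x * (f n).1 - (f n).2, (f n).1))
    (hQ : Qf x (f 0).1 (f 0).2 ≠ 0) :
    Tendsto (fun n => |(f n).1|) atTop atTop := by
  have hcons : ∀ n, Qf x (f n).1 (f n).2 = Qf x (f 0).1 (f 0).2 := by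
    intro n
    induction n with
    | zero => rfl
    | succ n ih => rw [← ih, hf n]; unfold Qf; ring
  by_cases hA : ∃ m, |(f m).2| ≤ |(f m).1|
  · obtain ⟨m, hm⟩ := hA
    have hpos : 0 < |(f m).1| := by
      rw [abs_pos]
      intro h0
      rw [h0, abs_zero] at hm
      have h1 : (f m).2 = 0 := abs_nonpos_iff.1 hm
      apply hQ
      rw [← hcons m, h0, h1]; unfold Qf; ring
    have hgrow : ∀ j, |(f (m + j)).2| ≤ |(f (m + j)).1| ∧ 3 ^ j * |(f m).1| ≤ |(f (m + j)).1| := by
      intro j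
      induction j with
      | zero => simpa using hm
      | succ j ih =>
        obtain ⟨i1, i2⟩ := ih
        have e : f (m + (j + 1)) = (x * (f (m + j)).1 - (f (m + j)).2, (f (m + j)).1) := hf (m + j)
        have h3 : 3 * |(f (m + j)).1| ≤ |x * (f (m + j)).1 - (f (m + j)).2| := by
          have h4 : |x * (f (m + j)).1| - |(f (m + j)).2| ≤ |x * (f (m + j)).1 - (f (m + j)).2| :=
            abs_sub_abs_le_abs_sub _ _
          rw [abs_mul, abs_of_nonneg (by linarith : 0 ≤ x)] at h4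
          nlinarith [abs_nonneg (f (m + j)).1]
        rw [e]
        constructor
        · nlinarith [abs_nonneg (f (m + j)).1]
        · calc 3 ^ (j + 1) * |(f m).1| = 3 * (3 ^ j * |(f m).1|) := by ring
            _ ≤ 3 * |(f (m + j)).1| := by linarith
            _ ≤ _ := h3
    have h1 : Tendsto (fun j : ℕ => (3:ℝ) ^ j * |(f m).1|) atTop atTop :=
      (tendsto_pow_atTop_atTop_of_one_lt (by norm_num)).atTop_mul_const hpos
    have h2 : Tendsto (fun j : ℕ => |(f (m + j)).1|) atTop atTop :=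
      tendsto_atTop_mono (fun j => (hgrow j).2) h1
    have h3 : (fun j : ℕ => |(f (m + j)).1|) = fun j => (fun n => |(f n).1|) (j + m) := by
      funext j; rw [add_comm]
    rw [h3] at h2
    exact (tendsto_add_atTop_iff_nat m).1 h2
  · exfalso
    push Not at hA
    have hdec : ∀ n, 3 * |(f n).1| ≤ |(f n).2| := by
      intro n
      have h1 := hA (n + 1)
      rw [hf n] at h1
      have h1' : |x * (f n).1 - (f n).2| < |(f n).1| := h1
      have h4 : |x * (f n).1| - |(f n).2| ≤ |x * (f n).1 - (f n).2| :=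
        abs_sub_abs_le_abs_sub _ _
      rw [abs_mul, abs_of_nonneg (by linarith : 0 ≤ x)] at h4
      nlinarith [abs_nonneg (f n).1]
    have hv : ∀ n, |(f n).2| ≤ (1 / 3) ^ n * |(f 0).2| := by
      intro n
      induction n with
      | zero => simp
      | succ n ih =>
        have e : (f (n + 1)).2 = (f n).1 := by rw [hf n]
        rw [e]
        have := hdec n
        calc |(f n).1| ≤ (1 / 3) * |(f n).2| := by linarith
          _ ≤ (1 / 3) * ((1 / 3) ^ n * |(f 0).2|) := by gcongr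
          _ = (1 / 3) ^ (n + 1) * |(f 0).2| := by ring
    have hv0 : Tendsto (fun n => (f n).2) atTop (𝓝 0) := by
      apply squeeze_zero_norm (a := fun n => (1 / 3 : ℝ) ^ n * |(f 0).2|) (fun n => by
        rw [Real.norm_eq_abs]; exact hv n)
      have := (tendsto_pow_atTop_nhds_zero_of_lt_one (by norm_num : (0:ℝ) ≤ 1 / 3)
        (by norm_num)).mul_const |(f 0).2|
      simpa using this
    have hu0 : Tendsto (fun n => (f n).1) atTop (𝓝 0) := by
      apply squeeze_zero_norm (a := fun n => |(f n).2|) (fun n => by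
        rw [Real.norm_eq_abs]
        have := hdec n
        linarith [abs_nonneg (f n).1])
      simpa using hv0.abs
    have hq0 : Tendsto (fun n => Qf x (f n).1 (f n).2) atTop (𝓝 0) := by
      have : Tendsto (fun n => (f n).1 ^ 2 - x * (f n).1 * (f n).2 + (f n).2 ^ 2) atTop
          (𝓝 ((0:ℝ) ^ 2 - x * 0 * 0 + 0 ^ 2)) :=
        ((hu0.pow 2).sub ((hu0.const_mul x).mul hv0)).add (hv0.pow 2)
      simpa [Qf] using this
    have : (fun n => Qf x (f n).1 (f n).2) = fun _ => Qf x (f 0).1 (f 0).2 := by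
      funext n; exact hcons n
    rw [this] at hq0
    exact hQ (tendsto_nhds_unique tendsto_const_nhds hq0)

/-- The discriminant polynomial. -/
lemma ae_Q_ne (b : ℕ → ℝ) (n : ℕ) :
    ∀ᵐ E ∂(volume : Measure ℝ), Qf (E + 4) (st b E (1, 0) n).1 (st b E (1, 0) n).2 ≠ 0 := by
  set P : ℝ[X] := (stP b (1, 0) n).1 ^ 2 - (X + C 4) * (stP b (1, 0) n).1 * (stP b (1, 0) n).2
    + (stP b (1, 0) n).2 ^ 2 with hP
  have heval : ∀ E, P.eval E = Qf (E + 4) (st b E (1, 0) n).1 (st b E (1, 0) n).2 := by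
    intro E
    rw [hP]
    simp [stP_eval1, stP_eval2, Qf]
  have hne : P ≠ 0 := by
    intro h0
    have h1 := heval (-4)
    rw [h0, eval_zero] at h1
    have h2 := st_det b (-4) (1, 0) (0, 1) n
    unfold Qf at h1
    norm_num at h1 h2
    have h3 : (st b (-4) (1, 0) n).1 = 0 := by nlinarith [sq_nonneg (st b (-4) (1, 0) n).1, sq_nonneg (st b (-4) (1, 0) n).2]
    have h4 : (st b (-4) (1, 0) n).2 = 0 := by nlinarith [sq_nonneg (st b (-4) (1, 0) n).1, sq_nonneg (st b (-4) (1, 0) n).2]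
    rw [h3, h4] at h2
    norm_num at h2
  have hfin : {E | P.eval E = 0}.Finite := by
    have : {E | P.eval E = 0} ⊆ (P.roots.toFinset : Set ℝ) := by
      intro E hE
      simp only [Finset.mem_coe, Multiset.mem_toFinset]
      rw [mem_roots hne]
      exact hE
    exact (Finset.finite_toSet _).subset this
  have hnull : volume {E | P.eval E = 0} = 0 := hfin.measure_zero _
  rw [ae_iff]
  convert hnull using 2
  ext E
  simp only [Set.mem_ofPred_eq, not_not, heval]

/-- Growth lemma. -/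
lemma growth (b : ℕ → ℝ) (n0 : ℕ) (hb : ∀ m ≥ n0, b m = -4) (k : ℝ) (η : ENNReal) (hη : 0 < η) :
    ∃ M : ℕ, 0 < M ∧
      volume {E : ℝ | (0 ≤ E ∧ E ≤ 1) ∧ |(st b E (1, 0) (n0 + M)).1| < k} ≤ η := by
  set ν : Measure ℝ := volume.restrict (Set.Icc 0 1) with hν
  set As : ℕ → Set ℝ := fun M => {E : ℝ | |(st b E (1, 0) (n0 + M)).1| < k} with hAs
  have hmeas : ∀ M, MeasurableSet (As M) := by
    intro M
    exact measurableSet_lt ((continuous_st1 b (1, 0) (n0 + M)).abs.measurable) measurable_const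
  have hlim : ∀ᵐ E ∂ν, ∀ᶠ M in atTop, E ∈ As M ↔ E ∈ (∅ : Set ℝ) := by
    have h1 : ∀ᵐ E ∂ν, Qf (E + 4) (st b E (1, 0) n0).1 (st b E (1, 0) n0).2 ≠ 0 :=
      ae_restrict_of_ae (ae_Q_ne b n0)
    have h2 : ∀ᵐ E ∂ν, E ∈ Set.Icc (0:ℝ) 1 := ae_restrict_mem measurableSet_Icc
    filter_upwards [h1, h2] with E hE1 hE2
    have hb' := blow_up (x := E + 4) (by linarith [hE2.1]) (fun j => st b E (1, 0) (n0 + j)) (by
      intro j
      have : st b E (1, 0) (n0 + (j + 1)) = ((E - b (n0 + j)) * (st b E (1, 0) (n0 + j)).1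
        - (st b E (1, 0) (n0 + j)).2, (st b E (1, 0) (n0 + j)).1) := rfl
      simp only [this, hb (n0 + j) (by omega)]
      ring_nf) (by simpa using hE1)
    filter_upwards [hb'.eventually_ge_atTop k] with M hM
    simp only [hAs, Set.mem_ofPred_eq, Set.mem_empty_iff_false, iff_false, not_lt]
    exact hM
  have ht := tendsto_measure_of_ae_tendsto_indicator_of_isFiniteMeasure atTop
    (MeasurableSet.empty) hmeas hlim
  rw [measure_empty] at ht
  have hev := (ht.eventually (Iio_mem_nhds hη)).and (eventually_gt_atTop 0)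
  obtain ⟨M, hM, hM0⟩ := hev.exists
  refine ⟨M, hM0, ?_⟩
  have : {E : ℝ | (0 ≤ E ∧ E ≤ 1) ∧ |(st b E (1, 0) (n0 + M)).1| < k} = As M ∩ Set.Icc 0 1 := by
    ext E; simp [hAs, and_comm]
  rw [this, ← Measure.restrict_apply (hmeas M)]
  exact le_of_lt hM

end

end Pool.Agent.Work.MP_dd0251_mp
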