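import Mathlib
import Pool.Agent.Work.MP_dd0251_mp.Adiabatic

namespace Pool.Agent.Work.MP_dd0251_mp

noncomputable section

/-- State of one solution along a ramp `x_n = x0 + ε n`. -/
def ramp (ε x0 : ℝ) (s : ℝ × ℝ) : ℕ → ℝ × ℝ
  | 0 => s
  | n + 1 => ((x0 + ε * n) * (ramp ε x0 s n).1 - (ramp ε x0 s n).2, (ramp ε x0 s n).1)

lemma Z_ramp {ε κ x0 : ℝ} (s : ℝ × ℝ) (hκ : 0 < κ) (hκ1 : κ ≤ 1) (hε : 0 < ε)
    (hεκ : ε ≤ κ ^ 4 / 1000000) (hx0 : 0 ≤ x0) (n : ℕ) (hx2 : x0 + ε * n ≤ 2)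
    (hD : κ ≤ 4 - (x0 + ε * n) ^ 2) :
    Zf ε (x0 + ε * n) (ramp ε x0 s n).1 (ramp ε x0 s n).2 ≤
      Zf ε x0 s.1 s.2 * (1 + 1000 / κ ^ 4 * ε ^ 2) ^ n ∧
    Zf ε x0 s.1 s.2 * (1 - 1000 / κ ^ 4 * ε ^ 2) ^ n ≤
      Zf ε (x0 + ε * n) (ramp ε x0 s n).1 (ramp ε x0 s n).2 := by
  induction n with
  | zero => simp [ramp]
  | succ n ih =>
    have hn0 : (0:ℝ) ≤ n := Nat.cast_nonneg n
    have hcast : ((n + 1 : ℕ) : ℝ) = (n : ℝ) + 1 := by push_cast; ring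
    have hx : x0 + ε * ((n + 1 : ℕ) : ℝ) = (x0 + ε * n) + ε := by rw [hcast]; ring
    rw [hx] at hx2 hD ⊢
    have hxn0 : 0 ≤ x0 + ε * n := by positivity
    have hx2' : x0 + ε * n ≤ 2 := by linarith
    have hD' : κ ≤ 4 - (x0 + ε * n) ^ 2 := by nlinarith
    obtain ⟨ih1, ih2⟩ := ih hx2' hD'
    have hs := Z_step (u := (ramp ε x0 s n).1) (v := (ramp ε x0 s n).2) hκ hκ1 hε hεκ hxn0 hx2 hD
    set c := 1000 / κ ^ 4 * ε ^ 2 with hc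
    have hc0 : 0 ≤ c := by positivity
    have hc1 : c ≤ 1 := by
      have h8 : ε ^ 2 ≤ (κ ^ 4 / 1000000) ^ 2 := pow_le_pow_left₀ hε.le hεκ 2
      calc c ≤ 1000 / κ ^ 4 * (κ ^ 4 / 1000000) ^ 2 := by rw [hc]; gcongr
        _ = (1000 / 1000000 ^ 2) * κ ^ 4 := by field_simp
        _ ≤ 1 := by
            have : κ ^ 4 ≤ 1 := pow_le_one₀ hκ.le hκ1
            nlinarith
    rw [abs_le] at hs
    have hr : ramp ε x0 s (n + 1) =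
      ((x0 + ε * n) * (ramp ε x0 s n).1 - (ramp ε x0 s n).2, (ramp ε x0 s n).1) := rfl
    rw [hr]
    constructor
    · calc _ ≤ Zf ε (x0 + ε * n) (ramp ε x0 s n).1 (ramp ε x0 s n).2 * (1 + c) := by
            linarith [hs.2]
        _ ≤ Zf ε x0 s.1 s.2 * (1 + c) ^ n * (1 + c) := by
            gcongr
        _ = Zf ε x0 s.1 s.2 * (1 + c) ^ (n + 1) := by ring
    · calc Zf ε x0 s.1 s.2 * (1 - c) ^ (n + 1) = Zf ε x0 s.1 s.2 * (1 - c) ^ n * (1 - c) := by ring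
        _ ≤ Zf ε (x0 + ε * n) (ramp ε x0 s n).1 (ramp ε x0 s n).2 * (1 - c) := by
            apply mul_le_mul_of_nonneg_right ih2; linarith
        _ ≤ _ := by linarith [hs.1]

/-- Adiabatic invariance of `Q ^ 2 / (4 - x ^ 2)` along a slow ramp. -/
lemma adiabatic {ε κ x0 : ℝ} (s : ℝ × ℝ) (hκ : 0 < κ) (hκ1 : κ ≤ 1) (hε : 0 < ε)
    (hεκ : ε ≤ κ ^ 4 / 1000000) (hx0 : 0 ≤ x0) (n : ℕ) (hx2 : x0 + ε * n ≤ 2)
    (hD : κ ≤ 4 - (x0 + ε * n) ^ 2) :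
    (Qf (x0 + ε * n) (ramp ε x0 s n).1 (ramp ε x0 s n).2) ^ 2 * (4 - x0 ^ 2) ≤
      1.02 * (Qf x0 s.1 s.2) ^ 2 * (4 - (x0 + ε * n) ^ 2) ∧
    0.98 * (Qf x0 s.1 s.2) ^ 2 * (4 - (x0 + ε * n) ^ 2) ≤
      (Qf (x0 + ε * n) (ramp ε x0 s n).1 (ramp ε x0 s n).2) ^ 2 * (4 - x0 ^ 2) := by
  obtain ⟨h1, h2⟩ := Z_ramp s hκ hκ1 hε hεκ hx0 n hx2 hD
  have hn0 : (0:ℝ) ≤ n := Nat.cast_nonneg n
  have hxn0 : 0 ≤ x0 + ε * n := by positivity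
  have hx02 : x0 ≤ 2 := by nlinarith [mul_nonneg hε.le hn0]
  have hx0n : x0 ≤ x0 + ε * n := by nlinarith [mul_nonneg hε.le hn0]
  have hD0 : κ ≤ 4 - x0 ^ 2 := by nlinarith
  have hDpos : 0 < 4 - (x0 + ε * n) ^ 2 := lt_of_lt_of_le hκ hD
  have hDpos0 : 0 < 4 - x0 ^ 2 := lt_of_lt_of_le hκ hD0
  have hεn : ε * n ≤ 2 := by linarith
  set c := 1000 / κ ^ 4 * ε ^ 2 with hc
  have hc0 : 0 ≤ c := by positivity
  have hcn : c * n ≤ 0.002 := by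
    calc c * n = 1000 / κ ^ 4 * ε * (ε * n) := by rw [hc]; ring
      _ ≤ 1000 / κ ^ 4 * (κ ^ 4 / 1000000) * 2 := by gcongr
      _ = 0.002 := by field_simp; norm_num
  have hc1 : c ≤ 1 := by
    have h8 : ε ^ 2 ≤ (κ ^ 4 / 1000000) ^ 2 := pow_le_pow_left₀ hε.le hεκ 2
    calc c ≤ 1000 / κ ^ 4 * (κ ^ 4 / 1000000) ^ 2 := by rw [hc]; gcongr
      _ = (1000 / 1000000 ^ 2) * κ ^ 4 := by field_simp
      _ ≤ 1 := by
          have : κ ^ 4 ≤ 1 := pow_le_one₀ hκ.le hκ1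
          nlinarith
  have hup : (1 + c) ^ n ≤ 1.003 := by
    calc (1 + c) ^ n ≤ (Real.exp c) ^ n := by
          apply pow_le_pow_left₀ (by positivity)
          linarith [Real.add_one_le_exp c]
      _ = Real.exp (c * n) := by rw [← Real.exp_nat_mul]; ring_nf
      _ ≤ Real.exp 0.002 := Real.exp_le_exp.2 hcn
      _ ≤ 1.003 := by
          have := Real.exp_bound' (x := 0.002) (by norm_num) (by norm_num) (n := 2) (by norm_num)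
          refine this.trans ?_
          norm_num [Finset.sum_range_succ, Nat.factorial]
  have hlow : 0.998 ≤ (1 - c) ^ n := by
    have := one_add_mul_le_pow (a := -c) (by linarith) n
    calc (0.998:ℝ) ≤ 1 + n * (-c) := by linarith
      _ ≤ (1 + -c) ^ n := this
      _ = (1 - c) ^ n := by ring
  have hR0 := R_close (u := s.1) (v := s.2) hκ hκ1 hε hεκ hx0 hx02 hD0
  have hRn := R_close (u := (ramp ε x0 s n).1) (v := (ramp ε x0 s n).2) hκ hκ1 hε hεκ hxn0 hx2 hD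
  have hQ0 : 0 ≤ Qf x0 s.1 s.2 := by
    have := Qf_u x0 s.1 s.2
    nlinarith [mul_nonneg hDpos0.le (sq_nonneg s.1)]
  have hQn : 0 ≤ Qf (x0 + ε * n) (ramp ε x0 s n).1 (ramp ε x0 s n).2 := by
    have := Qf_u (x0 + ε * n) (ramp ε x0 s n).1 (ramp ε x0 s n).2
    nlinarith [mul_nonneg hDpos.le (sq_nonneg (ramp ε x0 s n).1)]
  unfold Zf at h1 h2
  set Q0 := Qf x0 s.1 s.2 with hQ0def
  set Qn := Qf (x0 + ε * n) (ramp ε x0 s n).1 (ramp ε x0 s n).2 with hQndef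
  set R0 := Rf ε x0 s.1 s.2 with hR0def
  set Rn := Rf ε (x0 + ε * n) (ramp ε x0 s n).1 (ramp ε x0 s n).2 with hRndef
  set D0 := 4 - x0 ^ 2 with hD0def
  set Dn := 4 - (x0 + ε * n) ^ 2 with hDndef
  rw [abs_le] at hR0 hRn
  have a1 : 0.999 * Q0 ≤ R0 := by linarith
  have a2 : R0 ≤ 1.001 * Q0 := by linarith
  have a3 : 0.999 * Qn ≤ Rn := by linarith
  have a4 : Rn ≤ 1.001 * Qn := by linarith
  have b1 : Rn ^ 2 * D0 ≤ 1.003 * R0 ^ 2 * Dn := by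
    have : Rn ^ 2 / Dn ≤ R0 ^ 2 / D0 * 1.003 := h1.trans (by gcongr)
    rw [div_le_iff₀ hDpos] at this
    calc Rn ^ 2 * D0 ≤ (R0 ^ 2 / D0 * 1.003 * Dn) * D0 := by gcongr
      _ = 1.003 * R0 ^ 2 * Dn := by field_simp
  have b2 : 0.998 * R0 ^ 2 * Dn ≤ Rn ^ 2 * D0 := by
    have : R0 ^ 2 / D0 * 0.998 ≤ Rn ^ 2 / Dn := le_trans (by gcongr) h2
    rw [le_div_iff₀ hDpos] at this
    calc 0.998 * R0 ^ 2 * Dn = (R0 ^ 2 / D0 * 0.998 * Dn) * D0 := by field_simp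
      _ ≤ Rn ^ 2 * D0 := by gcongr
  have c1 : (0.999 * Qn) ^ 2 ≤ Rn ^ 2 := pow_le_pow_left₀ (by positivity) a3 2
  have c2 : Rn ^ 2 ≤ (1.001 * Qn) ^ 2 := pow_le_pow_left₀ (by linarith) a4 2
  have c3 : (0.999 * Q0) ^ 2 ≤ R0 ^ 2 := pow_le_pow_left₀ (by positivity) a1 2
  have c4 : R0 ^ 2 ≤ (1.001 * Q0) ^ 2 := pow_le_pow_left₀ (by linarith) a2 2
  constructor
  · have d1 : (0.999 * Qn) ^ 2 * D0 ≤ 1.003 * (1.001 * Q0) ^ 2 * Dn := by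
      calc (0.999 * Qn) ^ 2 * D0 ≤ Rn ^ 2 * D0 := by gcongr
        _ ≤ 1.003 * R0 ^ 2 * Dn := b1
        _ ≤ 1.003 * (1.001 * Q0) ^ 2 * Dn := by gcongr
    have d2 : 0 ≤ Q0 ^ 2 * Dn := by positivity
    have d3 : 0 ≤ Qn ^ 2 * D0 := by positivity
    nlinarith
  · have d1 : 0.998 * (0.999 * Q0) ^ 2 * Dn ≤ (1.001 * Qn) ^ 2 * D0 := by
      calc 0.998 * (0.999 * Q0) ^ 2 * Dn ≤ 0.998 * R0 ^ 2 * Dn := by gcongr
        _ ≤ Rn ^ 2 * D0 := b2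
        _ ≤ (1.001 * Qn) ^ 2 * D0 := by gcongr
    have d2 : 0 ≤ Q0 ^ 2 * Dn := by positivity
    have d3 : 0 ≤ Qn ^ 2 * D0 := by positivity
    nlinarith

end

end Pool.Agent.Work.MP_dd0251_mp
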