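import Mathlib
import Pool.Agent.Work.MP_dd0251_mp.Ramp

namespace Pool.Agent.Work.MP_dd0251_mp

noncomputable section

lemma sq_bd1 {q : ℝ} (h0 : 0 ≤ q) (h1 : q ^ 2 ≤ 1.02) : q ≤ 1.01 := by nlinarith

lemma sq_bd2 {q : ℝ} (h0 : 0 ≤ q) (h1 : 0.49 ≤ q ^ 2) : 0.7 ≤ q := by nlinarith

/-- Final step: at a sign change of the dominant solution everything is bounded. -/
lemma final_bound {x u v w z : ℝ} (hx0 : 0 ≤ x) (hx2 : x ≤ 2) (huv : u * v ≤ 0)
    (hQ1 : 0.7 ≤ Qf x u v) (hQ2 : Qf x u v ≤ 1.01) (hQt : Qf x w z ≤ 1.01)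
    (hdet : (u * z - w * v) ^ 2 = 1) :
    |u| ≤ 5 ∧ |v| ≤ 5 ∧ |w| ≤ 5 ∧ |z| ≤ 5 := by
  unfold Qf at *
  have h1 : u ^ 2 + v ^ 2 ≤ 1.01 := by nlinarith [mul_nonneg hx0 (neg_nonneg.2 huv)]
  have h2 : 0.7 ≤ (u - v) ^ 2 := by nlinarith [mul_nonneg (sub_nonneg.2 hx2) (neg_nonneg.2 huv)]
  have hu : |u| ≤ 5 := by
    apply abs_le_of_sq_le_sq' _ (by norm_num) |> abs_le.2
    nlinarith [sq_nonneg v]
  have hv : |v| ≤ 5 := by
    apply abs_le_of_sq_le_sq' _ (by norm_num) |> abs_le.2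
    nlinarith [sq_nonneg u]
  refine ⟨hu, hv, ?_⟩
  rcases le_or_gt (w * z) 0 with hwz | hwz
  · have h3 : w ^ 2 + z ^ 2 ≤ 1.01 := by nlinarith [mul_nonneg hx0 (neg_nonneg.2 hwz)]
    constructor
    · apply abs_le_of_sq_le_sq' _ (by norm_num) |> abs_le.2
      nlinarith [sq_nonneg z]
    · apply abs_le_of_sq_le_sq' _ (by norm_num) |> abs_le.2
      nlinarith [sq_nonneg w]
  · have h3 : (w - z) ^ 2 ≤ 1.01 := by nlinarith [mul_nonneg (sub_nonneg.2 hx2) hwz.le]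
    have hv2 : v ^ 2 ≤ 1.01 := by nlinarith [sq_nonneg u]
    -- (u - v) z = (u z - w v) + (w - z) v
    have h4 : ((u - v) * z) ^ 2 ≤ 2 * 1 + 2 * (1.01 * 1.01) := by
      have e1 : (u - v) * z = (u * z - w * v) + (w - z) * v := by ring
      have e2 : ((w - z) * v) ^ 2 ≤ 1.01 * 1.01 := by
        rw [mul_pow]
        exact mul_le_mul h3 hv2 (sq_nonneg _) (by norm_num)
      rw [e1]
      nlinarith [sq_nonneg ((u * z - w * v) - (w - z) * v)]
    have h5 : z ^ 2 ≤ 6 := by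
      rw [mul_pow] at h4
      nlinarith [mul_nonneg (sub_nonneg.2 h2) (sq_nonneg z), sq_nonneg z]
    constructor
    · apply abs_le_of_sq_le_sq' _ (by norm_num) |> abs_le.2
      nlinarith [sq_nonneg (w - 2 * z)]
    · apply abs_le_of_sq_le_sq' _ (by norm_num) |> abs_le.2
      linarith

/-- A positive solution cannot survive long when the local energy is `≤ 2 - κ`. -/
lemma sign_change {ε x0 δ : ℝ} (s : ℝ × ℝ) (hδ : 0 < δ) (n1 M : ℕ)
    (hM : 2 / δ + 2 ≤ M) (hx : ∀ j < M, x0 + ε * ((n1 + j : ℕ) : ℝ) ≤ 2 - δ) :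
    ∃ j ≤ M, (ramp ε x0 s (n1 + j)).1 * (ramp ε x0 s (n1 + j)).2 ≤ 0 := by
  by_contra hcon
  push Not at hcon
  set ρ : ℕ → ℝ := fun j => (ramp ε x0 s (n1 + j)).1 / (ramp ε x0 s (n1 + j)).2 with hρ
  have hpos : ∀ j ≤ M, 0 < ρ j := by
    intro j hj
    have h := hcon j hj
    have h2 : (ramp ε x0 s (n1 + j)).2 ≠ 0 := by
      intro h0; rw [h0, mul_zero] at h; exact lt_irrefl _ h
    have : ρ j = ((ramp ε x0 s (n1 + j)).1 * (ramp ε x0 s (n1 + j)).2) /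
        (ramp ε x0 s (n1 + j)).2 ^ 2 := by
      rw [hρ]; field_simp
    rw [this]
    exact div_pos h (by positivity)
  have hstep : ∀ j < M, ρ (j + 1) = (x0 + ε * ((n1 + j : ℕ) : ℝ)) - 1 / ρ j := by
    intro j hj
    have h := hcon j hj.le
    have h2 : (ramp ε x0 s (n1 + j)).2 ≠ 0 := by
      intro h0; rw [h0, mul_zero] at h; exact lt_irrefl _ h
    have h1 : (ramp ε x0 s (n1 + j)).1 ≠ 0 := by
      intro h0; rw [h0, zero_mul] at h; exact lt_irrefl _ h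
    have hr : ramp ε x0 s (n1 + (j + 1)) =
      ((x0 + ε * ((n1 + j : ℕ) : ℝ)) * (ramp ε x0 s (n1 + j)).1 - (ramp ε x0 s (n1 + j)).2,
        (ramp ε x0 s (n1 + j)).1) := rfl
    simp only [hρ]
    rw [hr]
    field_simp
  have hdec : ∀ j, 1 ≤ j → j ≤ M → ρ j ≤ 2 - δ * (j - 1) := by
    intro j hj1
    induction j, hj1 using Nat.le_induction with
    | base =>
      intro h1M
      have h0 := hstep 0 (by omega)
      have hp := hpos 0 (by omega)
      have hx' := hx 0 (by omega)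
      have : 0 < 1 / ρ 0 := by positivity
      rw [zero_add] at h0
      rw [h0]
      push_cast
      push_cast at hx'
      linarith
    | succ j hj1 ih =>
      intro hjM
      have ih' := ih (by omega)
      have h0 := hstep j (by omega)
      have hp := hpos j (by omega)
      have hx' := hx j (by omega)
      have hab : 2 - 1 / ρ j ≤ ρ j := by
        have : 0 ≤ (ρ j - 1) ^ 2 / ρ j := by positivity
        have h' : (ρ j - 1) ^ 2 / ρ j = ρ j - 2 + 1 / ρ j := by field_simp; ring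
        linarith
      rw [h0]
      push_cast at *
      linarith
  have hM1 : 1 ≤ M := by
    have : (0:ℝ) < M := lt_of_lt_of_le (by positivity) hM
    exact_mod_cast this
  have h1 := hdec M hM1 le_rfl
  have h2 := hpos M le_rfl
  have h3 : 2 ≤ δ * (M - 1) := by
    have : 2 / δ ≤ (M:ℝ) - 1 := by linarith
    rw [div_le_iff₀ hδ] at this
    linarith
  linarith

lemma det_ramp (ε x0 : ℝ) (s t : ℝ × ℝ) (n : ℕ) :
    (ramp ε x0 s n).1 * (ramp ε x0 t n).2 - (ramp ε x0 t n).1 * (ramp ε x0 s n).2 =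
      s.1 * t.2 - t.1 * s.2 := by
  induction n with
  | zero => rfl
  | succ n ih =>
    simp only [ramp]
    rw [← ih]; ring

/-- The return lemma, in the situation where `s` is the dominant solution. -/
lemma return_aux {Λ ε x0 : ℝ} (hΛ : 1 ≤ Λ) (hε : 0 < ε)
    (hε0 : ε ≤ (1 / (12 * Λ ^ 4)) ^ 4 / 1000000) (hx0 : 0 ≤ x0) (hx1 : x0 ≤ 1)
    (s t : ℝ × ℝ) (hdet : (s.1 * t.2 - t.1 * s.2) ^ 2 = 1)
    (hs1 : |s.1| ≤ Λ) (hs2 : |s.2| ≤ Λ)
    (hdom : Qf x0 t.1 t.2 ≤ Qf x0 s.1 s.2) :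
    ∃ n : ℕ, x0 + ε * n ≤ 2 ∧ |(ramp ε x0 s n).1| ≤ 5 ∧ |(ramp ε x0 s n).2| ≤ 5 ∧
      |(ramp ε x0 t n).1| ≤ 5 ∧ |(ramp ε x0 t n).2| ≤ 5 := by
  set κ := 1 / (12 * Λ ^ 4) with hκdef
  have hΛ4 : 1 ≤ Λ ^ 4 := one_le_pow₀ hΛ
  have hκ : 0 < κ := by positivity
  have hκ1 : κ ≤ 1 := by
    rw [hκdef, div_le_one (by positivity)]; linarith
  have hκ12 : κ ≤ 1 / 12 := by
    rw [hκdef]; apply one_div_le_one_div_of_le (by norm_num); linarith
  have hD0 : 3 ≤ 4 - x0 ^ 2 := by nlinarith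
  have hD04 : 4 - x0 ^ 2 ≤ 4 := by nlinarith [sq_nonneg x0]
  have hQs0 : 0 ≤ Qf x0 s.1 s.2 := by
    have := Qf_u x0 s.1 s.2
    nlinarith [mul_nonneg (by linarith : 0 ≤ 4 - x0 ^ 2) (sq_nonneg s.1)]
  have hQt0 : 0 ≤ Qf x0 t.1 t.2 := by
    have := Qf_u x0 t.1 t.2
    nlinarith [mul_nonneg (by linarith : 0 ≤ 4 - x0 ^ 2) (sq_nonneg t.1)]
  rcases le_or_gt (Qf x0 s.1 s.2) 10 with hsmall | hbig
  · -- nothing to do
    refine ⟨0, by push_cast; linarith, ?_⟩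
    have key : ∀ a b : ℝ, Qf x0 a b ≤ 10 → |a| ≤ 5 ∧ |b| ≤ 5 := by
      intro a b hab
      have h1 := Qf_u x0 a b
      have h2 := Qf_v x0 a b
      constructor
      · apply abs_le_of_sq_le_sq' _ (by norm_num) |> abs_le.2
        nlinarith [sq_nonneg a]
      · apply abs_le_of_sq_le_sq' _ (by norm_num) |> abs_le.2
        nlinarith [sq_nonneg b]
    have k1 := key s.1 s.2 hsmall
    have k2 := key t.1 t.2 (hdom.trans hsmall)
    exact ⟨k1.1, k1.2, k2.1, k2.2⟩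
  · -- the main case
    set Q0 := Qf x0 s.1 s.2 with hQ0
    set D0 := 4 - x0 ^ 2 with hD0def
    have hD0pos : 0 < D0 := by linarith
    set W := Q0 ^ 2 / D0 with hW
    have hWpos : 0 < W := by positivity
    have hW25 : 25 ≤ W := by
      rw [hW, le_div_iff₀ hD0pos]; nlinarith
    have hQ0le : Q0 ≤ 3 * Λ ^ 2 := by
      have h1 : s.1 ^ 2 ≤ Λ ^ 2 := by rw [← sq_abs]; exact pow_le_pow_left₀ (abs_nonneg _) hs1 2
      have h2 : s.2 ^ 2 ≤ Λ ^ 2 := by rw [← sq_abs]; exact pow_le_pow_left₀ (abs_nonneg _) hs2 2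
      rw [hQ0]; unfold Qf
      nlinarith [sq_nonneg (s.1 + s.2), sq_nonneg (s.1 - s.2), mul_nonneg hx0 (sq_nonneg (s.1 + s.2)),
        mul_nonneg (sub_nonneg.2 hx1) (add_nonneg (sq_nonneg s.1) (sq_nonneg s.2))]
    have hWle : W ≤ 3 * Λ ^ 4 := by
      rw [hW, div_le_iff₀ hD0pos]
      calc Q0 ^ 2 ≤ (3 * Λ ^ 2) ^ 2 := pow_le_pow_left₀ hQs0 hQ0le 2
        _ = 3 * Λ ^ 4 * 3 := by ring
        _ ≤ 3 * Λ ^ 4 * D0 := by gcongr
    have hWκ : W * κ ≤ 1 / 4 := by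
      calc W * κ ≤ 3 * Λ ^ 4 * κ := by gcongr
        _ = 1 / 4 := by rw [hκdef]; field_simp; norm_num
    have hWinv : 4 * κ ≤ 1 / W := by
      rw [le_div_iff₀ hWpos]; linarith
    have hWinv25 : 1 / W ≤ 1 / 25 := one_div_le_one_div_of_le (by norm_num) hW25
    have hεκ : ε ≤ κ ^ 4 / 1000000 := hε0
    have hκ2 : κ ^ 2 ≤ 1 := pow_le_one₀ hκ.le hκ1
    have hκ3 : κ ^ 3 ≤ κ := by nlinarith
    have hκ4 : κ ^ 4 ≤ κ ^ 2 := by nlinarith [sq_nonneg κ]
    have hε1 : ε ≤ 1 / 1000000 := by linarith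
    -- first time when D ≤ 1/W
    have hex : ∃ n : ℕ, 4 - (x0 + ε * n) ^ 2 ≤ 1 / W := by
      obtain ⟨n, hn⟩ := exists_nat_gt (2 / ε)
      refine ⟨n, ?_⟩
      rw [div_lt_iff₀ hε] at hn
      have : 0 < 1 / W := by positivity
      nlinarith
    classical
    set n1 := Nat.find hex with hn1
    have hn1spec : 4 - (x0 + ε * n1) ^ 2 ≤ 1 / W := Nat.find_spec hex
    have hn1pos : 0 < n1 := by
      rw [Nat.pos_iff_ne_zero]
      intro h0
      rw [h0] at hn1spec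
      push_cast at hn1spec
      have : 4 - x0 ^ 2 ≤ 1 / W := by simpa using hn1spec
      linarith
    obtain ⟨m, hm⟩ : ∃ m, n1 = m + 1 := ⟨n1 - 1, by omega⟩
    have hmlt : ¬ (4 - (x0 + ε * m) ^ 2 ≤ 1 / W) := Nat.find_min hex (by omega)
    push Not at hmlt
    have hm0 : (0:ℝ) ≤ m := Nat.cast_nonneg m
    have hxm0 : 0 ≤ x0 + ε * m := by positivity
    have hxm2 : x0 + ε * m ≤ 2 := by
      by_contra hc
      push Not at hc
      have : 0 < 1 / W := by positivity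
      nlinarith
    -- D decreases slowly
    have hDj : ∀ j : ℕ, 5 * ε * j ≤ 1 / (2 * W) →
        (0 ≤ x0 + ε * ((m + j : ℕ) : ℝ) ∧ x0 + ε * ((m + j : ℕ) : ℝ) ≤ 2 ∧
          1 / W - 5 * ε * j ≤ 4 - (x0 + ε * ((m + j : ℕ) : ℝ)) ^ 2) := by
      intro j
      induction j with
      | zero =>
        intro _
        refine ⟨by simpa using hxm0, by simpa using hxm2, ?_⟩
        simp only [add_zero, Nat.cast_zero, mul_zero, sub_zero]
        exact hmlt.le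
      | succ j ih =>
        intro hj
        have hj' : 5 * ε * (j:ℝ) ≤ 1 / (2 * W) := by
          push_cast at hj
          nlinarith
        obtain ⟨i1, i2, i3⟩ := ih hj'
        have hcast : x0 + ε * ((m + (j + 1) : ℕ) : ℝ) = (x0 + ε * ((m + j : ℕ) : ℝ)) + ε := by
          push_cast; ring
        have hW2 : 1 / (2 * W) = (1 / W) / 2 := by field_simp
        have hWp : 0 < 1 / W := by positivity
        rw [hcast]
        set y := x0 + ε * ((m + j : ℕ) : ℝ) with hy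
        have hD1 : 1 / W - 5 * ε * ((j + 1 : ℕ) : ℝ) ≤ 4 - (y + ε) ^ 2 := by
          push_cast
          have : (y + ε) ^ 2 ≤ y ^ 2 + 5 * ε := by nlinarith
          linarith
        refine ⟨by linarith, ?_, hD1⟩
        by_contra hc
        push Not at hc
        have : 0 < 4 - (y + ε) ^ 2 := by
          rw [hW2] at hj
          linarith
        nlinarith
    -- choose the window length
    set δ := κ / 2 with hδ
    have hδpos : 0 < δ := by positivity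
    obtain ⟨M, hM1, hM2⟩ : ∃ M : ℕ, 2 / δ + 2 ≤ M ∧ (M:ℝ) ≤ 2 / δ + 3 := by
      refine ⟨⌈2 / δ + 2⌉₊, Nat.le_ceil _, ?_⟩
      have := Nat.ceil_lt_add_one (by positivity : 0 ≤ 2 / δ + 2)
      linarith
    have hMε : 5 * ε * (M + 1) ≤ κ := by
      have h2 : 2 / δ = 4 / κ := by rw [hδ]; field_simp; norm_num
      rw [h2] at hM2
      calc 5 * ε * (M + 1) ≤ 5 * (κ ^ 4 / 1000000) * (4 / κ + 3 + 1) := by gcongr
        _ ≤ 5 * (κ ^ 4 / 1000000) * (8 / κ) := by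
            gcongr
            have : 4 ≤ 4 / κ := by rw [le_div_iff₀ hκ]; linarith
            have h8 : 8 / κ = 4 / κ + 4 / κ := by ring
            linarith
        _ = 40 / 1000000 * κ ^ 3 := by field_simp; ring
        _ ≤ κ := by nlinarith [pow_pos hκ 3]
    have hW2 : 1 / (2 * W) = (1 / W) / 2 := by field_simp
    have hwin : ∀ j ≤ M, (0 ≤ x0 + ε * ((n1 + j : ℕ) : ℝ) ∧ x0 + ε * ((n1 + j : ℕ) : ℝ) ≤ 2 ∧
          1 / (2 * W) ≤ 4 - (x0 + ε * ((n1 + j : ℕ) : ℝ)) ^ 2) := by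
      intro j hj
      have hjr : (j:ℝ) ≤ M := by exact_mod_cast hj
      have h5 : 5 * ε * ((j + 1 : ℕ) : ℝ) ≤ κ := by
        calc 5 * ε * ((j + 1 : ℕ) : ℝ) ≤ 5 * ε * (M + 1) := by
              push_cast; gcongr
          _ ≤ κ := hMε
      have h6 := hDj (j + 1) (by rw [hW2]; linarith)
      have hidx : m + (j + 1) = n1 + j := by omega
      rw [hidx] at h6
      refine ⟨h6.1, h6.2.1, ?_⟩
      rw [hW2]
      linarith [h6.2.2]
    have hupper : ∀ j : ℕ, 4 - (x0 + ε * ((n1 + j : ℕ) : ℝ)) ^ 2 ≤ 1 / W := by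
      intro j
      have hj0 : (0:ℝ) ≤ j := Nat.cast_nonneg j
      have hn10 : (0:ℝ) ≤ n1 := Nat.cast_nonneg n1
      have : (x0 + ε * n1) ^ 2 ≤ (x0 + ε * ((n1 + j : ℕ) : ℝ)) ^ 2 := by
        apply pow_le_pow_left₀ (by positivity)
        push_cast
        nlinarith [mul_nonneg hε.le hj0]
      linarith
    -- sign change in the window
    obtain ⟨j, hjM, hj⟩ := sign_change (ε := ε) (x0 := x0) (δ := δ) s hδpos n1 M hM1 (by
      intro j hj
      obtain ⟨w1, w2, w3⟩ := hwin j hj.le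
      have h4 : 2 * κ ≤ 1 / (2 * W) := by rw [hW2]; linarith
      -- 4 - x^2 = (2 - x)(2 + x) ≤ 4 (2 - x)
      rw [hδ]
      nlinarith)
    obtain ⟨w1, w2, w3⟩ := hwin j hjM
    have w4 := hupper j
    refine ⟨n1 + j, w2, ?_⟩
    have hκD : κ ≤ 4 - (x0 + ε * ((n1 + j : ℕ) : ℝ)) ^ 2 := by
      have h4 : 2 * κ ≤ 1 / (2 * W) := by rw [hW2]; linarith
      linarith
    have ads := adiabatic s hκ hκ1 hε hεκ hx0 (n1 + j) w2 hκD
    have adt := adiabatic t hκ hκ1 hε hεκ hx0 (n1 + j) w2 hκD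
    have hdetn := det_ramp ε x0 s t (n1 + j)
    set X := x0 + ε * ((n1 + j : ℕ) : ℝ) with hX
    set u := (ramp ε x0 s (n1 + j)).1 with hu
    set v := (ramp ε x0 s (n1 + j)).2 with hv
    set w := (ramp ε x0 t (n1 + j)).1 with hw
    set z := (ramp ε x0 t (n1 + j)).2 with hz
    have hDn : 0 < 4 - X ^ 2 := by linarith
    have hQn0 : 0 ≤ Qf X u v := by
      have := Qf_u X u v
      nlinarith [mul_nonneg hDn.le (sq_nonneg u)]
    have hQtn0 : 0 ≤ Qf X w z := by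
      have := Qf_u X w z
      nlinarith [mul_nonneg hDn.le (sq_nonneg w)]
    have hQ0W : Q0 ^ 2 = W * D0 := by rw [hW]; field_simp
    have e1 : (Qf X u v) ^ 2 ≤ 1.02 := by
      have h := ads.1
      rw [hQ0W] at h
      have h' : (Qf X u v) ^ 2 * D0 ≤ (1.02 * (W * (4 - X ^ 2))) * D0 := by
        calc (Qf X u v) ^ 2 * D0 ≤ 1.02 * (W * D0) * (4 - X ^ 2) := h
          _ = _ := by ring
      have h'' := le_of_mul_le_mul_right h' hD0pos
      have : W * (4 - X ^ 2) ≤ 1 := by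
        calc W * (4 - X ^ 2) ≤ W * (1 / W) := by gcongr
          _ = 1 := by field_simp
      linarith
    have e2 : 0.49 ≤ (Qf X u v) ^ 2 := by
      have h := ads.2
      rw [hQ0W] at h
      have h' : (0.98 * (W * (4 - X ^ 2))) * D0 ≤ (Qf X u v) ^ 2 * D0 := by
        calc (0.98 * (W * (4 - X ^ 2))) * D0 = 0.98 * (W * D0) * (4 - X ^ 2) := by ring
          _ ≤ _ := h
      have h'' := le_of_mul_le_mul_right h' hD0pos
      have : 1 / 2 ≤ W * (4 - X ^ 2) := by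
        calc 1 / 2 = W * (1 / (2 * W)) := by field_simp
          _ ≤ W * (4 - X ^ 2) := by gcongr
      linarith
    have e3 : (Qf X w z) ^ 2 ≤ 1.02 := by
      have h := adt.1
      have hQt2 : (Qf x0 t.1 t.2) ^ 2 ≤ W * D0 := by
        rw [← hQ0W]; exact pow_le_pow_left₀ hQt0 hdom 2
      have h' : (Qf X w z) ^ 2 * D0 ≤ (1.02 * (W * (4 - X ^ 2))) * D0 := by
        calc (Qf X w z) ^ 2 * D0 ≤ 1.02 * (Qf x0 t.1 t.2) ^ 2 * (4 - X ^ 2) := h
          _ ≤ 1.02 * (W * D0) * (4 - X ^ 2) := by gcongr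
          _ = _ := by ring
      have h'' := le_of_mul_le_mul_right h' hD0pos
      have : W * (4 - X ^ 2) ≤ 1 := by
        calc W * (4 - X ^ 2) ≤ W * (1 / W) := by gcongr
          _ = 1 := by field_simp
      linarith
    have f1 : Qf X u v ≤ 1.01 := sq_bd1 hQn0 e1
    have f2 : 0.7 ≤ Qf X u v := sq_bd2 hQn0 e2
    have f3 : Qf X w z ≤ 1.01 := sq_bd1 hQtn0 e3
    have hd : (u * z - w * v) ^ 2 = 1 := by rw [hdetn]; exact hdet
    exact final_bound w1 w2 hj f2 f1 f3 hd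

/-- **Return lemma**: along a sufficiently slow ramp through the band edge `2`, a transfer matrix
of norm at most `Λ` comes back to norm at most `5`. -/
lemma return_lemma {Λ ε x0 : ℝ} (hΛ : 1 ≤ Λ) (hε : 0 < ε)
    (hε0 : ε ≤ (1 / (12 * Λ ^ 4)) ^ 4 / 1000000) (hx0 : 0 ≤ x0) (hx1 : x0 ≤ 1)
    (s t : ℝ × ℝ) (hdet : (s.1 * t.2 - t.1 * s.2) ^ 2 = 1)
    (hs1 : |s.1| ≤ Λ) (hs2 : |s.2| ≤ Λ) (ht1 : |t.1| ≤ Λ) (ht2 : |t.2| ≤ Λ) :
    ∃ n : ℕ, x0 + ε * n ≤ 2 ∧ |(ramp ε x0 s n).1| ≤ 5 ∧ |(ramp ε x0 s n).2| ≤ 5 ∧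
      |(ramp ε x0 t n).1| ≤ 5 ∧ |(ramp ε x0 t n).2| ≤ 5 := by
  rcases le_total (Qf x0 t.1 t.2) (Qf x0 s.1 s.2) with h | h
  · exact return_aux hΛ hε hε0 hx0 hx1 s t hdet hs1 hs2 h
  · obtain ⟨n, h1, h2, h3, h4, h5⟩ := return_aux hΛ hε hε0 hx0 hx1 t s
      (by rw [← hdet]; ring) ht1 ht2 h
    exact ⟨n, h1, h4, h5, h2, h3⟩

end

end Pool.Agent.Work.MP_dd0251_mp
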