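import Mathlib
import Pool.Agent.Work.MP_dd0251_mp.Return
import Pool.Agent.Work.MP_dd0251_mp.Growth

open MeasureTheory Filter Topology

namespace Pool.Agent.Work.MP_dd0251_mp

noncomputable section

/-- All four entries of the transfer matrix at `m` are at most `5` in absolute value. -/
def Bdd5 (b : ℕ → ℝ) (E : ℝ) (m : ℕ) : Prop :=
  |(st b E (1, 0) m).1| ≤ 5 ∧ |(st b E (1, 0) m).2| ≤ 5 ∧
    |(st b E (0, 1) m).1| ≤ 5 ∧ |(st b E (0, 1) m).2| ≤ 5

lemma exists_bound (b : ℕ → ℝ) (n : ℕ) : ∃ Λ : ℝ, 1 ≤ Λ ∧ ∀ E, 0 ≤ E → E ≤ 1 →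
    |(st b E (1, 0) n).1| ≤ Λ ∧ |(st b E (1, 0) n).2| ≤ Λ ∧
    |(st b E (0, 1) n).1| ≤ Λ ∧ |(st b E (0, 1) n).2| ≤ Λ := by
  obtain ⟨C1, h1⟩ := (isCompact_Icc (a := (0:ℝ)) (b := 1)).exists_bound_of_continuousOn
    (continuous_st1 b (1, 0) n).continuousOn
  obtain ⟨C2, h2⟩ := (isCompact_Icc (a := (0:ℝ)) (b := 1)).exists_bound_of_continuousOn
    (continuous_st2 b (1, 0) n).continuousOn
  obtain ⟨C3, h3⟩ := (isCompact_Icc (a := (0:ℝ)) (b := 1)).exists_bound_of_continuousOn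
    (continuous_st1 b (0, 1) n).continuousOn
  obtain ⟨C4, h4⟩ := (isCompact_Icc (a := (0:ℝ)) (b := 1)).exists_bound_of_continuousOn
    (continuous_st2 b (0, 1) n).continuousOn
  refine ⟨max 1 (max (max C1 C2) (max C3 C4)), le_max_left _ _, fun E hE0 hE1 => ?_⟩
  have hE : E ∈ Set.Icc (0:ℝ) 1 := ⟨hE0, hE1⟩
  refine ⟨?_, ?_, ?_, ?_⟩
  · exact (h1 E hE).trans (by simp)
  · exact (h2 E hE).trans (by simp)
  · exact (h3 E hE).trans (by simp)
  · exact (h4 E hE).trans (by simp)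

lemma stage (b : ℕ → ℝ) (n : ℕ) (hb : ∀ m, -4 ≤ b m ∧ b m ≤ 0) (k : ℕ) :
    ∃ (b' : ℕ → ℝ) (n' : ℕ), n < n' ∧ (∀ m < n, b' m = b m) ∧ (∀ m, -4 ≤ b' m ∧ b' m ≤ 0) ∧
      (∀ E, 0 ≤ E → E ≤ 1 → ∃ m, n ≤ m ∧ m ≤ n' ∧ Bdd5 b' E m) ∧
      volume {E : ℝ | (0 ≤ E ∧ E ≤ 1) ∧ |(st b' E (1, 0) n').1| < k} ≤ (1 / 2 : ENNReal) ^ k := by
  obtain ⟨Λ, hΛ, hbd⟩ := exists_bound b n
  set ε : ℝ := (1 / (12 * Λ ^ 4)) ^ 4 / 1000000 with hε
  have hεpos : 0 < ε := by positivity
  set N := ⌈2 / ε⌉₊ with hN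
  have hN1 : 2 / ε ≤ N := Nat.le_ceil _
  have hN2 : (N:ℝ) < 2 / ε + 1 := Nat.ceil_lt_add_one (by positivity)
  set b' : ℕ → ℝ := fun m => if m < n then b m else if m < n + N then -(ε * ((m - n : ℕ) : ℝ))
    else -4 with hb'
  have hbtail : ∀ m ≥ n + N, b' m = -4 := by
    intro m hm
    simp only [hb']
    rw [if_neg (by omega), if_neg (by omega)]
  obtain ⟨M, hM0, hM⟩ := growth b' (n + N) hbtail k ((1 / 2 : ENNReal) ^ k) (by
    apply ENNReal.pow_pos
    simp)
  refine ⟨b', n + N + M, by omega, ?_, ?_, ?_, hM⟩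
  · intro m hm; simp only [hb']; rw [if_pos hm]
  · intro m
    simp only [hb']
    split_ifs with h1 h2
    · exact hb m
    · have h3 : ((m - n : ℕ) : ℝ) ≤ 2 / ε := by
        have : m - n + 1 ≤ N := by omega
        have : ((m - n : ℕ) : ℝ) + 1 ≤ N := by exact_mod_cast this
        linarith
      have h4 : ε * ((m - n : ℕ) : ℝ) ≤ 2 := by
        calc ε * ((m - n : ℕ) : ℝ) ≤ ε * (2 / ε) := by gcongr
          _ = 2 := by field_simp
      have h5 : 0 ≤ ε * ((m - n : ℕ) : ℝ) := by positivity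
      constructor <;> linarith
    · norm_num
  · intro E hE0 hE1
    have hst : ∀ s : ℝ × ℝ, ∀ j ≤ N, st b' E s (n + j) = ramp ε E (st b E s n) j := by
      intro s j
      induction j with
      | zero =>
        intro _
        simp only [add_zero, ramp]
        apply st_congr
        intro m hm
        simp only [hb']; rw [if_pos hm]
      | succ j ih =>
        intro hj
        have ih' := ih (by omega)
        have e1 : st b' E s (n + (j + 1)) = ((E - b' (n + j)) * (st b' E s (n + j)).1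
          - (st b' E s (n + j)).2, (st b' E s (n + j)).1) := rfl
        have e2 : b' (n + j) = -(ε * j) := by
          simp only [hb']
          rw [if_neg (by omega), if_pos (by omega)]
          simp
        rw [e1, ih', e2]
        simp only [ramp, sub_neg_eq_add]
    obtain ⟨c1, c2, c3, c4⟩ := hbd E hE0 hE1
    have hdet := st_det b E (1, 0) (0, 1) n
    obtain ⟨j, hj, d1, d2, d3, d4⟩ := return_lemma (x0 := E) hΛ hεpos le_rfl hE0 hE1
      (st b E (1, 0) n) (st b E (0, 1) n) (by rw [hdet]; norm_num) c1 c2 c3 c4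
    have hjN : j ≤ N := by
      have : ε * j ≤ 2 := by linarith
      have h2 : (j:ℝ) ≤ 2 / ε := by rw [le_div_iff₀ hεpos]; linarith
      have h3 : (j:ℝ) ≤ N := h2.trans hN1
      exact_mod_cast h3
    refine ⟨n + j, by omega, by omega, ?_⟩
    unfold Bdd5
    rw [hst _ j hjN, hst _ j hjN]
    exact ⟨d1, d2, d3, d4⟩

/-- The sequence of stages. -/
def stages : ℕ → {p : (ℕ → ℝ) × ℕ // ∀ m, -4 ≤ p.1 m ∧ p.1 m ≤ 0}
  | 0 => ⟨(fun _ => 0, 0), fun _ => by norm_num⟩
  | k + 1 =>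
    ⟨(Classical.choose (stage (stages k).1.1 (stages k).1.2 (stages k).2 k),
      Classical.choose (Classical.choose_spec
        (stage (stages k).1.1 (stages k).1.2 (stages k).2 k))),
      (Classical.choose_spec (Classical.choose_spec
        (stage (stages k).1.1 (stages k).1.2 (stages k).2 k))).2.2.1⟩

lemma stages_spec (k : ℕ) :
    (stages k).1.2 < (stages (k + 1)).1.2 ∧
    (∀ m < (stages k).1.2, (stages (k + 1)).1.1 m = (stages k).1.1 m) ∧
    (∀ E, 0 ≤ E → E ≤ 1 → ∃ m, (stages k).1.2 ≤ m ∧ m ≤ (stages (k + 1)).1.2 ∧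
      Bdd5 (stages (k + 1)).1.1 E m) ∧
    volume {E : ℝ | (0 ≤ E ∧ E ≤ 1) ∧
      |(st (stages (k + 1)).1.1 E (1, 0) (stages (k + 1)).1.2).1| < k} ≤ (1 / 2 : ENNReal) ^ k := by
  have h := Classical.choose_spec (Classical.choose_spec
        (stage (stages k).1.1 (stages k).1.2 (stages k).2 k))
  exact ⟨h.1, h.2.1, h.2.2.2.1, h.2.2.2.2⟩

lemma stages_mono (k : ℕ) : k ≤ (stages k).1.2 := by
  induction k with
  | zero => exact Nat.zero_le _
  | succ k ih => have := (stages_spec k).1; omega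

lemma stages_len_mono {j k : ℕ} (h : j ≤ k) : (stages j).1.2 ≤ (stages k).1.2 := by
  induction k, h using Nat.le_induction with
  | base => exact le_rfl
  | succ k _ ih => have := (stages_spec k).1; omega

lemma stages_agree {j k : ℕ} (h : j ≤ k) : ∀ m < (stages j).1.2,
    (stages k).1.1 m = (stages j).1.1 m := by
  induction k, h using Nat.le_induction with
  | base => intro m _; rfl
  | succ k hjk ih =>
    intro m hm
    rw [(stages_spec k).2.1 m (lt_of_lt_of_le hm (stages_len_mono hjk)), ih m hm]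

/-- The potential of the counterexample. -/
def pot (m : ℕ) : ℝ := (stages (m + 1)).1.1 m

lemma pot_agree (k : ℕ) : ∀ m < (stages k).1.2, pot m = (stages k).1.1 m := by
  intro m hm
  unfold pot
  rcases le_total k (m + 1) with h | h
  · exact stages_agree h m hm
  · exact (stages_agree h m (lt_of_lt_of_le (Nat.lt_succ_self m) (stages_mono (m + 1)))).symm

theorem exists_potential : ∃ b : ℕ → ℝ, (∀ m, -4 ≤ b m ∧ b m ≤ 0) ∧
    (∀ E, 0 ≤ E → E ≤ 1 → ∀ N, ∃ m ≥ N, Bdd5 b E m) ∧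
    (∀ k : ℕ, ∃ n : ℕ,
      volume {E : ℝ | (0 ≤ E ∧ E ≤ 1) ∧ |(st b E (1, 0) n).1| < k} ≤ (1 / 2 : ENNReal) ^ k) := by
  refine ⟨pot, fun m => (stages (m + 1)).2 m, ?_, ?_⟩
  · intro E hE0 hE1 N
    obtain ⟨m, hm1, hm2, hm3⟩ := (stages_spec N).2.2.1 E hE0 hE1
    refine ⟨m, (stages_mono N).trans hm1, ?_⟩
    unfold Bdd5 at *
    have h : ∀ s, st pot E s m = st (stages (N + 1)).1.1 E s m := fun s =>
      st_congr E s m (fun i hi => pot_agree (N + 1) i (by omega))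
    rw [h, h]
    exact hm3
  · intro k
    refine ⟨(stages (k + 1)).1.2, ?_⟩
    have h := (stages_spec k).2.2.2
    have e : ∀ E, st pot E (1, 0) (stages (k + 1)).1.2 =
        st (stages (k + 1)).1.1 E (1, 0) (stages (k + 1)).1.2 := fun E =>
      st_congr E _ _ (fun i hi => pot_agree (k + 1) i hi)
    simp only [e]
    exact h

end

end Pool.Agent.Work.MP_dd0251_mp
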