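import Mathlib
import Pool.Agent.Work.MP_dd0251_mp.Growth

open MeasureTheory Filter Topology Matrix

namespace Pool.Agent.Work.MP_dd0251_mp

noncomputable section

/-- Truncated Jacobi matrix of size `n`. -/
def Jm (a b : ℕ → ℝ) (n : ℕ) : Matrix (Fin n) (Fin n) ℝ :=
  Matrix.of fun i j : Fin n =>
    if i.val = j.val then b i.val
    else if j.val = i.val + 1 then a i.val
    else if i.val = j.val + 1 then a j.val
    else (0 : ℝ)

lemma Jm_herm (a b : ℕ → ℝ) (n : ℕ) : (Jm a b n).IsHermitian := by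
  ext i j
  simp only [Jm, conjTranspose_apply, of_apply, star_trivial]
  split_ifs <;> first | rfl | (exfalso; omega) | (congr 1)

/-- A row of the Jacobi matrix applied to (the restriction of) a sequence. -/
lemma Jm_sum (a b : ℕ → ℝ) (n : ℕ) (f : ℕ → ℝ) (i : Fin n) :
    ∑ j : Fin n, Jm a b n i j * f j =
      b i * f i + (if i.val + 1 < n then a i * f (i + 1) else 0) +
        (if i.val = 0 then 0 else a (i - 1) * f (i - 1)) := by
  have h1 : ∀ j : Fin n, Jm a b n i j * f j =
      (if i.val = j.val then b i * f i else 0) + (if j.val = i.val + 1 then a i * f (i + 1) else 0)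
        + (if i.val = j.val + 1 then a (i - 1) * f (i - 1) else 0) := by
    intro j
    simp only [Jm, of_apply]
    by_cases c1 : i.val = j.val
    · have c2 : ¬ (j.val = i.val + 1) := by omega
      have c3 : ¬ (i.val = j.val + 1) := by omega
      simp only [c1, if_true]
      rw [if_neg (by omega), if_neg (by omega)]; ring
    · by_cases c2 : j.val = i.val + 1
      · have c3 : ¬ (i.val = j.val + 1) := by omega
        rw [if_neg c1, if_pos c2, if_neg c1, if_pos c2, if_neg c3, c2]; ring
      · by_cases c3 : i.val = j.val + 1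
        · rw [if_neg c1, if_neg c2, if_pos c3, if_neg c1, if_neg c2, if_pos c3]
          have : j.val = i.val - 1 := by omega
          rw [this]; ring
        · rw [if_neg c1, if_neg c2, if_neg c3, if_neg c1, if_neg c2, if_neg c3]; ring
  rw [Finset.sum_congr rfl (fun j _ => h1 j), Finset.sum_add_distrib, Finset.sum_add_distrib]
  congr 1
  · congr 1
    · rw [Finset.sum_eq_single i]
      · simp
      · intro j _ hj
        rw [if_neg]
        intro e; exact hj (Fin.ext e.symm)
      · intro h'; exact absurd (Finset.mem_univ _) h'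
    · split_ifs with h
      · rw [Finset.sum_eq_single (⟨i.val + 1, h⟩ : Fin n)]
        · simp
        · intro j _ hj
          rw [if_neg]
          intro e; exact hj (Fin.ext e)
        · intro h'; exact absurd (Finset.mem_univ _) h'
      · apply Finset.sum_eq_zero
        intro j _
        rw [if_neg]
        have := j.isLt
        omega
  · split_ifs with h
    · apply Finset.sum_eq_zero
      intro j _
      rw [if_neg (by omega)]
    · rw [Finset.sum_eq_single (⟨i.val - 1, by omega⟩ : Fin n)]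
      · rw [if_pos]; simp; omega
      · intro j _ hj
        rw [if_neg]
        intro e; apply hj; apply Fin.ext; simp; omega
      · intro h'; exact absurd (Finset.mem_univ _) h'

/-- The vector `J^k e_0` for the infinite matrix. -/
def wv (a b : ℕ → ℝ) : ℕ → ℕ → ℝ
  | 0 => fun i => if i = 0 then 1 else 0
  | k + 1 => fun i => b i * wv a b k i + a i * wv a b k (i + 1) +
      (if i = 0 then 0 else a (i - 1) * wv a b k (i - 1))

lemma wv_supp (a b : ℕ → ℝ) (k i : ℕ) (h : k < i) : wv a b k i = 0 := by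
  induction k generalizing i with
  | zero => simp only [wv]; rw [if_neg (by omega)]
  | succ k ih =>
    simp only [wv]
    rw [ih i (by omega), ih (i + 1) (by omega), if_neg (by omega), ih (i - 1) (by omega)]
    ring

lemma Jm_pow (a b : ℕ → ℝ) (n k : ℕ) (hk : k < n) (i : Fin n) :
    ((Jm a b n) ^ k) i ⟨0, by omega⟩ = wv a b k i := by
  induction k generalizing i with
  | zero =>
    simp only [pow_zero, wv, one_apply]
    congr 1
    rw [Fin.ext_iff]
  | succ k ih =>
    rw [pow_succ', mul_apply]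
    have h1 : ∀ j : Fin n, Jm a b n i j * (Jm a b n ^ k) j ⟨0, by omega⟩ =
        Jm a b n i j * (fun m : ℕ => wv a b k m) j := by
      intro j; rw [ih (by omega) j]
    rw [Finset.sum_congr rfl (fun j _ => h1 j), Jm_sum a b n (fun m : ℕ => wv a b k m) i]
    simp only [wv]
    split_ifs with h2 h3
    · rfl
    · rfl
    · rw [wv_supp a b k (i + 1) (by omega)]; ring
    · rw [wv_supp a b k (i + 1) (by omega)]; ring

/-- Weights of the spectral measure of the truncated matrix. -/
def wt (a b : ℕ → ℝ) (n : ℕ) (j : Fin (n + 1)) : ℝ :=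
  ((Jm_herm a b (n + 1)).eigenvectorBasis j 0) ^ 2

/-- Eigenvalues of the truncated matrix. -/
def ev (a b : ℕ → ℝ) (n : ℕ) (j : Fin (n + 1)) : ℝ :=
  (Jm_herm a b (n + 1)).eigenvalues j

lemma sum_wt_pow (a b : ℕ → ℝ) (n k : ℕ) :
    ∑ j, wt a b n j * ev a b n j ^ k = ((Jm a b (n + 1)) ^ k) 0 0 := by
  have hA := Jm_herm a b (n + 1)
  have h := hA.spectral_theorem
  have h2 : (Jm a b (n + 1)) ^ k = Unitary.conjStarAlgAut ℝ _ hA.eigenvectorUnitary
      (diagonal ((RCLike.ofReal ∘ hA.eigenvalues) ^ k)) := by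
    conv_lhs => rw [h]
    rw [← map_pow, diagonal_pow]
  rw [h2, Unitary.conjStarAlgAut_apply, mul_apply]
  apply Finset.sum_congr rfl
  intro j _
  rw [mul_diagonal]
  simp only [wt, ev, Pi.pow_apply, Function.comp_apply, RCLike.ofReal_real_eq_id, id_eq,
    star_apply, star_trivial, IsHermitian.eigenvectorUnitary_apply]
  ring

lemma sum_wt (a b : ℕ → ℝ) (n : ℕ) : ∑ j, wt a b n j = 1 := by
  have := sum_wt_pow a b n 0
  simpa using this

lemma wt_nonneg (a b : ℕ → ℝ) (n : ℕ) (j : Fin (n + 1)) : 0 ≤ wt a b n j := sq_nonneg _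

lemma eig_row (a b : ℕ → ℝ) (n : ℕ) (j : Fin (n + 1)) (f : ℕ → ℝ)
    (hf : ∀ i : Fin (n + 1), (Jm_herm a b (n + 1)).eigenvectorBasis j i = f i) (i : Fin (n + 1)) :
    b i * f i + (if i.val + 1 < n + 1 then a i * f (i + 1) else 0) +
        (if i.val = 0 then 0 else a (i - 1) * f (i - 1)) = ev a b n j * f i := by
  have h := congrFun ((Jm_herm a b (n + 1)).mulVec_eigenvectorBasis j) i
  simp only [mulVec, dotProduct] at h
  rw [Finset.sum_congr rfl (fun x _ => by rw [hf x]), Jm_sum a b (n + 1) f i] at h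
  rw [h]
  simp only [Pi.smul_apply, smul_eq_mul, hf i, ev]

lemma ev_bound (a b : ℕ → ℝ) (C : ℝ) (ha : ∀ m, |a m| ≤ C) (hb : ∀ m, |b m| ≤ C) (n : ℕ)
    (j : Fin (n + 1)) : |ev a b n j| ≤ 3 * C := by
  have hC : 0 ≤ C := (abs_nonneg _).trans (ha 0)
  set v := (Jm_herm a b (n + 1)).eigenvectorBasis j with hv
  obtain ⟨i, -, hi⟩ := Finset.exists_mem_eq_sup' Finset.univ_nonempty (fun i => |v i|)
  have hle : ∀ l, |v l| ≤ |v i| := fun l => by
    rw [← hi]; exact Finset.le_sup' (fun i => |v i|) (Finset.mem_univ l)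
  have hne : v i ≠ 0 := by
    intro h0
    have hz : v = 0 := by
      ext l
      have := hle l
      rw [h0, abs_zero] at this
      simpa using abs_nonpos_iff.1 this
    have hn : ‖v‖ = 1 := (Jm_herm a b (n + 1)).eigenvectorBasis.orthonormal.1 j
    rw [hz, norm_zero] at hn
    exact zero_ne_one hn
  have hpos : 0 < |v i| := abs_pos.2 hne
  set f : ℕ → ℝ := fun m => if h : m < n + 1 then v ⟨m, h⟩ else 0 with hf
  have hfv : ∀ l : Fin (n + 1), v l = f l := by
    intro l; simp only [hf]; rw [dif_pos l.isLt]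
  have hfle : ∀ m, |f m| ≤ |v i| := by
    intro m
    simp only [hf]
    split_ifs with h
    · exact hle _
    · simp
  have hrow := eig_row a b n j f hfv i
  have h1 : |ev a b n j * f i| ≤ 3 * C * |v i| := by
    rw [← hrow]
    have e1 : |b i * f i| ≤ C * |v i| := by
      rw [abs_mul]; exact mul_le_mul (hb _) (hfle _) (abs_nonneg _) hC
    have e2 : |if i.val + 1 < n + 1 then a i * f (i + 1) else 0| ≤ C * |v i| := by
      split_ifs
      · rw [abs_mul]; exact mul_le_mul (ha _) (hfle _) (abs_nonneg _) hC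
      · rw [abs_zero]; positivity
    have e3 : |if i.val = 0 then 0 else a (i - 1) * f (i - 1)| ≤ C * |v i| := by
      split_ifs
      · rw [abs_zero]; positivity
      · rw [abs_mul]; exact mul_le_mul (ha _) (hfle _) (abs_nonneg _) hC
    calc _ ≤ |b i * f i| + |if i.val + 1 < n + 1 then a i * f (i + 1) else 0| +
          |if i.val = 0 then 0 else a (i - 1) * f (i - 1)| :=
          (abs_add_le _ _).trans (by gcongr; exact abs_add_le _ _)
      _ ≤ _ := by linarith
  rw [abs_mul, ← hfv i] at h1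
  exact le_of_mul_le_mul_right h1 hpos

/-- For `a = 1` the eigenvectors are given by the orthonormal polynomials. -/
lemma eig_poly (b : ℕ → ℝ) (n : ℕ) (j : Fin (n + 1)) (m : ℕ) (hm : m < n + 1) :
    (Jm_herm (fun _ => 1) b (n + 1)).eigenvectorBasis j ⟨m, hm⟩ =
      (st b (ev (fun _ => 1) b n j) (1, 0) m).1 *
        (Jm_herm (fun _ => 1) b (n + 1)).eigenvectorBasis j 0 := by
  set v := (Jm_herm (fun _ => 1) b (n + 1)).eigenvectorBasis j with hv
  set f : ℕ → ℝ := fun m => if h : m < n + 1 then v ⟨m, h⟩ else 0 with hf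
  have hfv : ∀ l : Fin (n + 1), v l = f l := by
    intro l; simp only [hf]; rw [dif_pos l.isLt]
  have hrow := eig_row (fun _ => 1) b n j f hfv
  set E := ev (fun _ => 1) b n j with hE
  have key : ∀ m, m < n + 1 → f m = (st b E (1, 0) m).1 * f 0 ∧
      (if m = 0 then 0 else f (m - 1)) = (st b E (1, 0) m).2 * f 0 := by
    intro m
    induction m with
    | zero => intro _; simp [st]
    | succ m ih =>
      intro hm
      obtain ⟨i1, i2⟩ := ih (by omega)
      have hr := hrow ⟨m, by omega⟩
      simp only [one_mul] at hr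
      rw [if_pos hm] at hr
      have h2 : f (m + 1) = (E - b m) * f m - (if m = 0 then 0 else f (m - 1)) := by
        linarith
      constructor
      · rw [h2, i1, i2]; simp only [st]; ring
      · simp only [st, Nat.add_sub_cancel]
        rw [if_neg (by omega)]
        exact i1
  have h0 : v 0 = f 0 := hfv 0
  rw [h0, hfv ⟨m, hm⟩]
  exact (key m hm).1

lemma sum_wt_poly (b : ℕ → ℝ) (n m : ℕ) (hm : m < n + 1) :
    ∑ j, wt (fun _ => 1) b n j * ((st b (ev (fun _ => 1) b n j) (1, 0) m).1) ^ 2 = 1 := by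
  have h1 : ∀ j : Fin (n + 1), wt (fun _ => 1) b n j *
      ((st b (ev (fun _ => 1) b n j) (1, 0) m).1) ^ 2 =
      ((Jm_herm (fun _ => 1) b (n + 1)).eigenvectorBasis j ⟨m, hm⟩) ^ 2 := by
    intro j
    rw [eig_poly b n j m hm, wt]; ring
  rw [Finset.sum_congr rfl (fun j _ => h1 j)]
  -- unitarity of the eigenvector matrix
  have hU := Unitary.mul_star_self_of_mem (Jm_herm (fun _ => 1) b (n + 1)).eigenvectorUnitary.2
  have h2 := congrFun (congrFun hU ⟨m, hm⟩) ⟨m, hm⟩
  rw [mul_apply, one_apply_eq] at h2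
  refine Eq.trans ?_ h2
  apply Finset.sum_congr rfl
  intro j _
  simp only [star_apply, star_trivial, IsHermitian.eigenvectorUnitary_apply]
  ring

/-- The spectral measure of the truncated matrix, as a measure on `[-R, R]`. -/
def muN (a b : ℕ → ℝ) (C : ℝ) (ha : ∀ m, |a m| ≤ C) (hb : ∀ m, |b m| ≤ C) (n : ℕ) :
    Measure (Set.Icc (-(3 * C)) (3 * C)) :=
  ∑ j, ENNReal.ofReal (wt a b n j) •
    Measure.dirac (⟨ev a b n j, abs_le.1 (ev_bound a b C ha hb n j)⟩ : Set.Icc (-(3 * C)) (3 * C))

lemma muN_prob (a b : ℕ → ℝ) (C : ℝ) (ha : ∀ m, |a m| ≤ C) (hb : ∀ m, |b m| ≤ C) (n : ℕ) :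
    IsProbabilityMeasure (muN a b C ha hb n) := by
  constructor
  unfold muN
  rw [Measure.finsetSum_apply]
  simp only [Measure.smul_apply, measure_univ, smul_eq_mul, mul_one]
  rw [← ENNReal.ofReal_sum_of_nonneg (fun j _ => wt_nonneg a b n j), sum_wt]
  simp

lemma integral_muN (a b : ℕ → ℝ) (C : ℝ) (ha : ∀ m, |a m| ≤ C) (hb : ∀ m, |b m| ≤ C) (n : ℕ)
    (f : ℝ → ℝ) :
    ∫ x, f x ∂(muN a b C ha hb n) = ∑ j, wt a b n j * f (ev a b n j) := by
  unfold muN
  rw [integral_finsetSum_measure]
  · apply Finset.sum_congr rfl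
    intro j _
    rw [integral_smul_measure, integral_dirac, ENNReal.toReal_ofReal (wt_nonneg a b n j),
      smul_eq_mul]
  · intro j _
    apply Integrable.smul_measure _ ENNReal.ofReal_ne_top
    exact (integrable_dirac (by simp))

/-- Existence of the spectral measure, together with the normalisation of the orthonormal
polynomials (`a = 1`). -/
theorem exists_spectral (b : ℕ → ℝ) (C : ℝ) (hC : 1 ≤ C) (hb : ∀ m, |b m| ≤ C) :
    ∃ μ : Measure ℝ, IsProbabilityMeasure μ ∧
      (∀ k : ℕ, Integrable (fun x : ℝ => x ^ k) μ) ∧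
      (∀ k : ℕ, ∫ x, x ^ k ∂μ = ((Jm (fun _ => 1) b (k + 1)) ^ k) 0 0) ∧
      (∀ m : ℕ, Integrable (fun x : ℝ => ((st b x (1, 0) m).1) ^ 2) μ) ∧
      (∀ m : ℕ, ∫ x, ((st b x (1, 0) m).1) ^ 2 ∂μ = 1) := by
  have ha : ∀ m : ℕ, |(fun _ => (1:ℝ)) m| ≤ C := fun _ => by simpa using hC
  set K := Set.Icc (-(3 * C)) (3 * C) with hK
  let μs : ℕ → ProbabilityMeasure K := fun n => ⟨muN (fun _ => 1) b C ha hb n,
    muN_prob (fun _ => 1) b C ha hb n⟩
  obtain ⟨ν, -, hν⟩ := (isCompact_univ (X := ProbabilityMeasure K)).ultrafilter_le_nhds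
    (Ultrafilter.map μs (hyperfilter ℕ)) (by simp)
  have hν' : Tendsto μs (hyperfilter ℕ : Filter ℕ) (𝓝 ν) := hν
  rw [ProbabilityMeasure.tendsto_iff_forall_integral_tendsto] at hν'
  -- transfer
  have key : ∀ f : ℝ → ℝ, Continuous f → ∀ c : ℝ, (∀ᶠ n in atTop,
      ∑ j, wt (fun _ => 1) b n j * f (ev (fun _ => 1) b n j) = c) →
      ∫ x : K, f x ∂(ν : Measure K) = c := by
    intro f hf c hc
    let g : K → ℝ := fun x => f x
    have hg : Continuous g := hf.comp continuous_subtype_val
    let G : BoundedContinuousFunction K ℝ := BoundedContinuousFunction.mkOfCompact ⟨g, hg⟩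
    have h1 := hν' G
    have h2 : Tendsto (fun i => ∫ ω, G ω ∂(μs i : Measure K)) (hyperfilter ℕ : Filter ℕ) (𝓝 c) := by
      apply Tendsto.congr' _ tendsto_const_nhds
      have h3 : ∀ᶠ n in (hyperfilter ℕ : Filter ℕ),
          ∑ j, wt (fun _ => 1) b n j * f (ev (fun _ => 1) b n j) = c :=
        hc.filter_mono (Nat.hyperfilter_le_atTop)
      filter_upwards [h3] with n hn
      rw [← hn]
      exact (integral_muN (fun _ => 1) b C ha hb n f).symm
    exact tendsto_nhds_unique h1 h2
  have hint : ∀ f : ℝ → ℝ, Continuous f → Integrable (fun x : K => f x) (ν : Measure K) := by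
    intro f hf
    have hg : Continuous (fun x : K => f x) := hf.comp continuous_subtype_val
    exact (BoundedContinuousFunction.mkOfCompact ⟨fun x : K => f x, hg⟩).integrable _
  have hval : MeasurableEmbedding (Subtype.val : K → ℝ) :=
    MeasurableEmbedding.subtype_coe measurableSet_Icc
  refine ⟨(ν : Measure K).map Subtype.val, ?_, ?_, ?_, ?_, ?_⟩
  · exact Measure.isProbabilityMeasure_map measurable_subtype_coe.aemeasurable
  · intro k
    rw [hval.integrable_map_iff]
    exact hint (fun x => x ^ k) (continuous_pow k)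
  · intro k
    rw [hval.integral_map]
    apply key (fun x => x ^ k) (continuous_pow k)
    filter_upwards [eventually_ge_atTop k] with n hn
    rw [sum_wt_pow]
    have h1 := Jm_pow (fun _ => 1) b (n + 1) k (by omega) 0
    have h2 := Jm_pow (fun _ => 1) b (k + 1) k (by omega) 0
    have e1 : (⟨0, by omega⟩ : Fin (n + 1)) = 0 := rfl
    have e2 : (⟨0, by omega⟩ : Fin (k + 1)) = 0 := rfl
    rw [e1] at h1
    rw [e2] at h2
    rw [h1, h2]; rfl
  · intro m
    rw [hval.integrable_map_iff]
    exact hint (fun x => ((st b x (1, 0) m).1) ^ 2) ((continuous_st1 b (1, 0) m).pow 2)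
  · intro m
    rw [hval.integral_map]
    apply key (fun x => ((st b x (1, 0) m).1) ^ 2) ((continuous_st1 b (1, 0) m).pow 2)
    filter_upwards [eventually_ge_atTop m] with n hn
    exact sum_wt_poly b n m (by omega)

end

end Pool.Agent.Work.MP_dd0251_mp
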