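import Mathlib
import Pool.Agent.Work.MP_dd0251_mp.Construct
import Pool.Agent.Work.MP_dd0251_mp.Spectral

open MeasureTheory Filter Topology

namespace Pool.Agent.Work.MP_dd0251_mp

noncomputable section

/-- The transfer matrix in terms of the two basic solutions. -/
lemma transfer_eq (b : ℕ → ℝ) (E : ℝ) (n : ℕ) :
    ((List.range n).reverse.map
      (fun m => ((fun _ : ℕ => (1:ℝ)) m)⁻¹ •
        !![E - b m, -1; ((fun _ : ℕ => (1:ℝ)) m) ^ 2, 0])).prod =
      !![(st b E (1, 0) n).1, (st b E (0, 1) n).1; (st b E (1, 0) n).2, (st b E (0, 1) n).2] := by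
  induction n with
  | zero =>
    simp [st, Matrix.one_fin_two]
  | succ n ih =>
    rw [List.range_succ, List.reverse_append, List.reverse_singleton, List.singleton_append,
      List.map_cons, List.prod_cons, ih]
    ext i j
    fin_cases i <;> fin_cases j <;> simp [st, Matrix.mul_apply, Fin.sum_univ_two, sub_eq_add_neg]

lemma no_ac (b : ℕ → ℝ) (μ : Measure ℝ) [IsProbabilityMeasure μ]
    (hint : ∀ m : ℕ, Integrable (fun x : ℝ => ((st b x (1, 0) m).1) ^ 2) μ)
    (hone : ∀ m : ℕ, ∫ x, ((st b x (1, 0) m).1) ^ 2 ∂μ = 1)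
    (hgrow : ∀ k : ℕ, ∃ n : ℕ,
      volume {E : ℝ | (0 ≤ E ∧ E ≤ 1) ∧ |(st b E (1, 0) n).1| < k} ≤ (1 / 2 : ENNReal) ^ k) :
    volume ({E : ℝ | 0 < μ.rnDeriv volume E} ∩ Set.Icc 0 1) = 0 := by
  choose n hn using hgrow
  set F : ℕ → Set ℝ := fun k => {E : ℝ | (0 ≤ E ∧ E ≤ 1) ∧ |(st b E (1, 0) (n k)).1| < k} with hF
  have hsum : ∑' k, volume (F k) ≠ ⊤ := by
    have h1 : ∑' k, volume (F k) ≤ ∑' k : ℕ, (1 / 2 : ENNReal) ^ k := ENNReal.tsum_le_tsum hn
    have h2 : ∑' k : ℕ, (1 / 2 : ENNReal) ^ k = 2 := by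
      have := ENNReal.tsum_geometric (1 / 2 : ENNReal)
      rw [this]
      norm_num
    rw [h2] at h1
    exact ne_top_of_le_ne_top (by norm_num) h1
  have hnull : volume {x | ∃ᶠ k in atTop, x ∈ F k} = 0 := measure_setOfPred_frequently_eq_zero hsum
  set N := {x | ∃ᶠ k in atTop, x ∈ F k} with hN
  set G : Set ℝ := Set.Icc 0 1 \ N with hG
  -- Markov
  have hmarkov : ∀ k : ℕ, μ {x | (k:ℝ) ^ 2 ≤ ((st b x (1, 0) (n k)).1) ^ 2} * (k:ENNReal) ^ 2 ≤ 1 := by
    intro k
    have h := mul_meas_ge_le_integral_of_nonneg (μ := μ)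
      (f := fun x : ℝ => ((st b x (1, 0) (n k)).1) ^ 2)
      (Eventually.of_forall fun x => sq_nonneg _) (hint (n k)) ((k:ℝ) ^ 2)
    rw [hone] at h
    have h2 : ENNReal.ofReal ((k:ℝ) ^ 2 * μ.real {x | (k:ℝ) ^ 2 ≤ ((st b x (1, 0) (n k)).1) ^ 2}) ≤
        ENNReal.ofReal 1 := ENNReal.ofReal_le_ofReal h
    rw [ENNReal.ofReal_mul (by positivity), ENNReal.ofReal_one, Measure.real,
      ENNReal.ofReal_toReal (measure_ne_top _ _), ENNReal.ofReal_pow (by positivity),
      ENNReal.ofReal_natCast] at h2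
    rw [mul_comm]; exact h2
  have hGnull : μ G = 0 := by
    have hsub : G ⊆ ⋃ m : ℕ, ⋂ k ≥ m, {x | (k:ℝ) ^ 2 ≤ ((st b x (1, 0) (n k)).1) ^ 2} := by
      intro x hx
      obtain ⟨hx1, hx2⟩ := hx
      have h3 : ∀ᶠ k in atTop, x ∉ F k := by
        simpa [hN, Filter.not_frequently] using hx2
      obtain ⟨m, hm⟩ := eventually_atTop.1 h3
      rw [Set.mem_iUnion]
      refine ⟨m, ?_⟩
      simp only [Set.mem_iInter]
      intro k hk
      have h4 := hm k hk
      have h5 : (k:ℝ) ≤ |(st b x (1, 0) (n k)).1| := by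
        by_contra hc
        push Not at hc
        exact h4 ⟨⟨hx1.1, hx1.2⟩, hc⟩
      show (k:ℝ) ^ 2 ≤ ((st b x (1, 0) (n k)).1) ^ 2
      rw [← sq_abs ((st b x (1, 0) (n k)).1)]
      exact pow_le_pow_left₀ (Nat.cast_nonneg k) h5 2
    apply measure_mono_null hsub
    rw [measure_iUnion_null_iff]
    intro m
    apply le_antisymm _ (zero_le)
    apply ENNReal.le_of_forall_pos_le_add
    intro ε hε _
    rw [zero_add]
    obtain ⟨k, hk⟩ := exists_nat_gt (max (m:ℝ) (max 1 (1 / (ε:ℝ))))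
    have hk1 : (m:ℝ) < k := lt_of_le_of_lt (le_max_left _ _) hk
    have hk2 : (1:ℝ) < k := lt_of_le_of_lt ((le_max_left _ _).trans (le_max_right _ _)) hk
    have hk3 : 1 / (ε:ℝ) < k := lt_of_le_of_lt ((le_max_right _ _).trans (le_max_right _ _)) hk
    have hmk : m ≤ k := by exact_mod_cast hk1.le
    calc μ (⋂ k ≥ m, {x | (k:ℝ) ^ 2 ≤ ((st b x (1, 0) (n k)).1) ^ 2})
        ≤ μ {x | (k:ℝ) ^ 2 ≤ ((st b x (1, 0) (n k)).1) ^ 2} := by
          apply measure_mono
          intro x hx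
          simp only [Set.mem_iInter] at hx
          exact hx k hmk
      _ ≤ 1 / (k:ENNReal) ^ 2 := by
          rw [ENNReal.le_div_iff_mul_le]
          · exact hmarkov k
          · left
            have : (k:ENNReal) ≠ 0 := by
              simp; intro h0; rw [h0] at hk2; norm_num at hk2
            exact pow_ne_zero 2 this
          · left; exact ENNReal.pow_ne_top (ENNReal.natCast_ne_top k)
      _ ≤ ε := by
          have hε' : (0:ℝ) < ε := hε
          have h6 : (1:ℝ) / (k:ℝ) ^ 2 ≤ ε := by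
            have : 1 < (ε:ℝ) * k := by
              rw [div_lt_iff₀ hε'] at hk3; linarith
            rw [div_le_iff₀ (by positivity)]
            nlinarith
          have h7 : (1:ENNReal) / (k:ENNReal) ^ 2 = ENNReal.ofReal ((1:ℝ) / (k:ℝ) ^ 2) := by
            rw [ENNReal.ofReal_div_of_pos (by positivity), ENNReal.ofReal_one,
              ENNReal.ofReal_pow (by positivity), ENNReal.ofReal_natCast]
          rw [h7]
          calc ENNReal.ofReal ((1:ℝ) / (k:ℝ) ^ 2) ≤ ENNReal.ofReal (ε:ℝ) :=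
                ENNReal.ofReal_le_ofReal h6
            _ = ε := ENNReal.ofReal_coe_nnreal
  -- conclude
  have hmeasN : NullMeasurableSet G volume := by
    apply NullMeasurableSet.diff measurableSet_Icc.nullMeasurableSet
    exact NullMeasurableSet.of_null hnull
  have hint0 : ∫⁻ x in G, μ.rnDeriv volume x ∂volume = 0 := by
    apply le_antisymm _ (zero_le)
    rw [← hGnull]
    exact Measure.setLIntegral_rnDeriv_le G
  have hae : ∀ᵐ x ∂(volume.restrict G), μ.rnDeriv volume x = 0 := by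
    rw [lintegral_eq_zero_iff (Measure.measurable_rnDeriv μ volume)] at hint0
    exact hint0
  have hG0 : volume ({E : ℝ | 0 < μ.rnDeriv volume E} ∩ G) = 0 := by
    have h8 : (volume.restrict G) {E : ℝ | 0 < μ.rnDeriv volume E} = 0 := by
      rw [ae_iff] at hae
      convert hae using 2
      ext x
      simp [pos_iff_ne_zero]
    rwa [Measure.restrict_apply
      (measurableSet_lt measurable_const (Measure.measurable_rnDeriv μ volume))] at h8
  apply measure_mono_null (t := ({E : ℝ | 0 < μ.rnDeriv volume E} ∩ G) ∪ N)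
  · rintro x ⟨hx1, hx2⟩
    by_cases hxN : x ∈ N
    · right; exact hxN
    · left; exact ⟨hx1, hx2, hxN⟩
  · exact measure_union_null hG0 hnull

end

end Pool.Agent.Work.MP_dd0251_mp
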