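import Mathlib
import Pool.Agent.Work.MP_dd0251_mp.Final

set_option autoImplicit false

open MeasureTheory Filter Topology

namespace Pool.Agent.Work.MP_dd0251_mp

noncomputable section

/-- The Hilbert space of square summable sequences. -/
abbrev H : Type := lp (fun _ : ℕ => ℂ) 2

/-- The action of the Jacobi matrix. -/
def jac (a b : ℕ → ℝ) (u : ℕ → ℂ) (n : ℕ) : ℂ :=
  a n * u (n + 1) + b n * u n + (if n = 0 then 0 else a (n - 1) * u (n - 1))

lemma two_toReal_pos : (0 : ℝ) < (2 : ENNReal).toReal := by norm_num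

lemma summable_sq (u : H) : Summable fun n => ‖u n‖ ^ 2 := by
  have h := (memℓp_gen_iff (p := 2) two_toReal_pos).1 (lp.memℓp u)
  simpa using h

lemma memlp_of_summable {u : ℕ → ℂ} (h : Summable fun n => ‖u n‖ ^ 2) : Memℓp u 2 := by
  apply (memℓp_gen_iff (p := 2) two_toReal_pos).2
  simpa using h

lemma norm_sq_eq (u : H) : ‖u‖ ^ 2 = ∑' n, ‖u n‖ ^ 2 := by
  have h := lp.norm_rpow_eq_tsum (p := 2) two_toReal_pos u
  simpa using h

lemma summable_shift (u : H) : Summable fun n => ‖u (n + 1)‖ ^ 2 :=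
  (summable_nat_add_iff 1).2 (summable_sq u)

lemma summable_pred (u : H) : Summable fun n => ‖(if n = 0 then 0 else u (n - 1) : ℂ)‖ ^ 2 := by
  rw [← summable_nat_add_iff 1]
  simpa using summable_sq u

lemma tsum_shift (u : H) : ∑' n, ‖u (n + 1)‖ ^ 2 ≤ ∑' n, ‖u n‖ ^ 2 := by
  rw [(summable_sq u).tsum_eq_zero_add]
  have : (0:ℝ) ≤ ‖u 0‖ ^ 2 := sq_nonneg _
  linarith

lemma tsum_pred (u : H) : ∑' n, ‖(if n = 0 then 0 else u (n - 1) : ℂ)‖ ^ 2 = ∑' n, ‖u n‖ ^ 2 := by
  rw [(summable_pred u).tsum_eq_zero_add]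
  simp

variable (b : ℕ → ℝ) (C : ℝ) (hC : ∀ n, |b n| ≤ C)

include hC in
lemma jac_bound (u : H) (n : ℕ) :
    ‖jac (fun _ => 1) b u n‖ ^ 2 ≤ 3 * ‖u (n + 1)‖ ^ 2 + 3 * C ^ 2 * ‖u n‖ ^ 2 +
      3 * ‖(if n = 0 then 0 else u (n - 1) : ℂ)‖ ^ 2 := by
  have h1 : ‖jac (fun _ => 1) b u n‖ ≤ ‖u (n + 1)‖ + C * ‖u n‖ +
      ‖(if n = 0 then 0 else u (n - 1) : ℂ)‖ := by
    unfold jac
    refine (norm_add₃_le).trans ?_
    gcongr
    · simp
    · rw [norm_mul, Complex.norm_real, Real.norm_eq_abs]
      exact mul_le_mul_of_nonneg_right (hC n) (norm_nonneg _)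
    · split_ifs <;> simp
  have hC0 : 0 ≤ C := (abs_nonneg _).trans (hC 0)
  have h2 : 0 ≤ ‖jac (fun _ => 1) b u n‖ := norm_nonneg _
  set x := ‖u (n + 1)‖
  set y := ‖u n‖
  set z := ‖(if n = 0 then 0 else u (n - 1) : ℂ)‖
  have h3 : ‖jac (fun _ => 1) b u n‖ ^ 2 ≤ (x + C * y + z) ^ 2 := pow_le_pow_left₀ h2 h1 2
  nlinarith [sq_nonneg (x - C * y), sq_nonneg (x - z), sq_nonneg (C * y - z)]

include hC in
lemma jac_summable (u : H) : Summable fun n => ‖jac (fun _ => 1) b u n‖ ^ 2 := by
  refine Summable.of_nonneg_of_le (fun n => sq_nonneg _) (jac_bound b C hC u) ?_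
  exact (((summable_shift u).mul_left _).add ((summable_sq u).mul_left _)).add
    ((summable_pred u).mul_left _)

include hC in
lemma jac_norm (u : H) : ∑' n, ‖jac (fun _ => 1) b u n‖ ^ 2 ≤ (3 * (2 + C ^ 2)) * ‖u‖ ^ 2 := by
  have h1 := (jac_summable b C hC u).tsum_le_tsum (jac_bound b C hC u)
    ((((summable_shift u).mul_left _).add ((summable_sq u).mul_left _)).add
    ((summable_pred u).mul_left _))
  rw [Summable.tsum_add (((summable_shift u).mul_left _).add ((summable_sq u).mul_left _))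
    ((summable_pred u).mul_left _), Summable.tsum_add ((summable_shift u).mul_left _)
    ((summable_sq u).mul_left _), tsum_mul_left, tsum_mul_left, tsum_mul_left, tsum_pred] at h1
  have h2 := tsum_shift u
  rw [norm_sq_eq]
  nlinarith

/-- The Jacobi operator with `a = 1` and bounded `b`. -/
def Jop : H →L[ℂ] H :=
  LinearMap.mkContinuous
    { toFun := fun u => ⟨jac (fun _ => 1) b u, memlp_of_summable (jac_summable b C hC u)⟩
      map_add' := fun u v => by
        ext n
        simp only [jac, lp.coeFn_add, Pi.add_apply]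
        split_ifs <;> ring
      map_smul' := fun c u => by
        ext n
        simp only [jac, lp.coeFn_smul, Pi.smul_apply, smul_eq_mul, RingHom.id_apply]
        split_ifs <;> ring } (Real.sqrt (3 * (2 + C ^ 2))) (fun u => by
    have h := jac_norm b C hC u
    have h1 : ‖(⟨jac (fun _ => 1) b u, memlp_of_summable (jac_summable b C hC u)⟩ : H)‖ ^ 2 ≤
        (3 * (2 + C ^ 2)) * ‖u‖ ^ 2 := by
      rw [norm_sq_eq]; exact h
    have h2 : 0 ≤ 3 * (2 + C ^ 2) := by positivity
    have h3 := Real.sqrt_le_sqrt h1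
    rw [Real.sqrt_sq (norm_nonneg _), Real.sqrt_mul h2, Real.sqrt_sq (norm_nonneg _)] at h3
    exact h3)

lemma Jop_apply (u : H) (n : ℕ) : Jop b C hC u n = jac (fun _ => 1) b u n := rfl

/-- The basis vectors. -/
def dl (n : ℕ) : H := lp.single 2 n (1 : ℂ)

lemma dl_apply (n m : ℕ) : dl n m = if m = n then 1 else 0 := by
  unfold dl
  rw [lp.single_apply]
  by_cases h : m = n
  · subst h; simp
  · simp [h]

lemma inner_dl (n : ℕ) (u : H) : inner ℂ (dl n) u = u n := by
  unfold dl
  rw [lp.inner_single_left]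
  simp

lemma Jop_dl (n : ℕ) : Jop b C hC (dl n) =
    (if n = 0 then 0 else dl (n - 1)) + ((b n : ℝ) : ℂ) • dl n + dl (n + 1) := by
  ext m
  rw [Jop_apply, jac]
  rcases Nat.eq_zero_or_pos n with hn | hn
  · subst hn
    simp only [lp.coeFn_add, lp.coeFn_smul, Pi.add_apply, Pi.smul_apply, dl_apply, smul_eq_mul, if_true,
      lp.coeFn_zero, Pi.zero_apply]
    rcases Nat.eq_zero_or_pos m with hm | hm
    · subst hm; simp
    · by_cases h1 : m = 1
      · subst h1; simp
      · have e1 : m - 1 ≠ 0 := by omega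
        simp [h1, e1, hm.ne']
  · simp only [if_neg hn.ne', lp.coeFn_add, lp.coeFn_smul, Pi.add_apply, Pi.smul_apply, dl_apply,
      smul_eq_mul]
    by_cases h1 : m + 1 = n
    · have e1 : m ≠ n := by omega
      have e2 : m - 1 ≠ n := by omega
      have e3 : m = n - 1 := by omega
      have e4 : m ≠ n + 1 := by omega
      rw [if_pos h1, if_neg e1, if_neg e2, if_pos e3, if_neg e4]
      simp
    · have e3 : m ≠ n - 1 := by omega
      rw [if_neg h1, if_neg e3]
      by_cases h2 : m = n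
      · have e4 : m ≠ n + 1 := by omega
        have e5 : m - 1 ≠ n := by omega
        rw [if_pos h2, if_neg e4, if_neg e5, h2]
        simp
      · rw [if_neg h2]
        by_cases h3 : m = n + 1
        · have e6 : m - 1 = n := by omega
          have e7 : m ≠ 0 := by omega
          rw [if_pos h3, if_pos e6, if_neg e7]
          simp
        · rw [if_neg h3]
          by_cases h4 : m = 0
          · rw [if_pos h4]; simp
          · have e8 : m - 1 ≠ n := by omega
            rw [if_neg h4, if_neg e8]; simp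

lemma Jop_selfAdjoint : IsSelfAdjoint (Jop b C hC) := by
  rw [ContinuousLinearMap.isSelfAdjoint_iff']
  ext v n
  rw [← inner_dl n, ContinuousLinearMap.adjoint_inner_right, Jop_dl, Jop_apply, jac]
  rw [inner_add_left, inner_add_left, inner_smul_left, inner_dl, inner_dl]
  rcases Nat.eq_zero_or_pos n with hn | hn
  · subst hn
    simp
    ring
  · rw [if_neg hn.ne', if_neg hn.ne', inner_dl]
    simp
    ring

lemma Jop_pow (k n : ℕ) : ((Jop b C hC) ^ k) (dl 0) n = (wv (fun _ => 1) b k n : ℂ) := by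
  induction k generalizing n with
  | zero =>
    simp only [pow_zero, wv, ContinuousLinearMap.one_apply, dl_apply]
    split_ifs <;> simp
  | succ k ih =>
    rw [pow_succ', ContinuousLinearMap.mul_apply, Jop_apply, jac, ih, ih, ih]
    simp only [wv]
    split_ifs <;> push_cast <;> ring

end

end Pool.Agent.Work.MP_dd0251_mp
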