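import Mathlib
import Pool.Agent.Work.MP_dd0251_mp.Op

set_option autoImplicit false

namespace Pool.Agent.Work.MP_dd0251_mp

noncomputable section

lemma dl_ne : dl 0 ≠ 0 := by
  intro h
  have h1 : (dl 0 : H) 0 = 0 := by rw [h]; rfl
  rw [dl_apply] at h1
  simp at h1

lemma nontrivial_H : Nontrivial H := ⟨⟨dl 0, 0, dl_ne⟩⟩

lemma norm_dl (n : ℕ) : ‖dl n‖ = 1 := by
  unfold dl
  rw [lp.norm_single (by norm_num)]
  simp

end

end Pool.Agent.Work.MP_dd0251_mp
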