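import Mathlib
import Pool.Agent.Work.MP_dd0251_mp.Spectral

set_option autoImplicit false

open MeasureTheory Filter Topology

namespace Pool.Agent.Work.MP_dd0251_mp

noncomputable section

/-- A probability measure with the right moments and compact support. -/
theorem exists_moments (b : ℕ → ℝ) (C : ℝ) (hC : 1 ≤ C) (hb : ∀ m, |b m| ≤ C) :
    ∃ μ : Measure ℝ, IsProbabilityMeasure μ ∧ μ (Set.Icc (-(3 * C)) (3 * C))ᶜ = 0 ∧
      (∀ k : ℕ, ∫ x, x ^ k ∂μ = wv (fun _ => 1) b k 0) := by
  have ha : ∀ m : ℕ, |(fun _ => (1:ℝ)) m| ≤ C := fun _ => by simpa using hC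
  set K := Set.Icc (-(3 * C)) (3 * C) with hK
  let μs : ℕ → ProbabilityMeasure K := fun n => ⟨muN (fun _ => 1) b C ha hb n,
    muN_prob (fun _ => 1) b C ha hb n⟩
  obtain ⟨ν, -, hν⟩ := (isCompact_univ (X := ProbabilityMeasure K)).ultrafilter_le_nhds
    (Ultrafilter.map μs (hyperfilter ℕ)) (by simp)
  have hν' : Tendsto μs (hyperfilter ℕ : Filter ℕ) (𝓝 ν) := hν
  rw [ProbabilityMeasure.tendsto_iff_forall_integral_tendsto] at hν'
  -- transfer
  have key : ∀ f : ℝ → ℝ, Continuous f → ∀ c : ℝ, (∀ᶠ n in atTop,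
      ∑ j, wt (fun _ => 1) b n j * f (ev (fun _ => 1) b n j) = c) →
      ∫ x : K, f x ∂(ν : Measure K) = c := by
    intro f hf c hc
    let g : K → ℝ := fun x => f x
    have hg : Continuous g := hf.comp continuous_subtype_val
    let G : BoundedContinuousFunction K ℝ := BoundedContinuousFunction.mkOfCompact ⟨g, hg⟩
    have h1 := hν' G
    have h2 : Tendsto (fun i => ∫ ω, G ω ∂(μs i : Measure K)) (hyperfilter ℕ : Filter ℕ) (𝓝 c) := by
      apply Tendsto.congr' _ tendsto_const_nhds
      have h3 : ∀ᶠ n in (hyperfilter ℕ : Filter ℕ),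
          ∑ j, wt (fun _ => 1) b n j * f (ev (fun _ => 1) b n j) = c :=
        hc.filter_mono (Nat.hyperfilter_le_atTop)
      filter_upwards [h3] with n hn
      rw [← hn]
      exact (integral_muN (fun _ => 1) b C ha hb n f).symm
    exact tendsto_nhds_unique h1 h2
  have hval : MeasurableEmbedding (Subtype.val : K → ℝ) :=
    MeasurableEmbedding.subtype_coe measurableSet_Icc
  refine ⟨(ν : Measure K).map Subtype.val, ?_, ?_, ?_⟩
  · exact Measure.isProbabilityMeasure_map measurable_subtype_coe.aemeasurable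
  · rw [Measure.map_apply measurable_subtype_coe measurableSet_Icc.compl]
    have : (Subtype.val : K → ℝ) ⁻¹' Kᶜ = ∅ := by
      ext x; simp [x.2]
    rw [this, measure_empty]
  · intro k
    rw [hval.integral_map]
    apply key (fun x => x ^ k) (continuous_pow k)
    filter_upwards [eventually_ge_atTop k] with n hn
    rw [sum_wt_pow]
    have h1 := Jm_pow (fun _ => 1) b (n + 1) k (by omega) 0
    have e1 : (⟨0, by omega⟩ : Fin (n + 1)) = 0 := rfl
    rw [e1] at h1
    rw [h1]; rfl

end

end Pool.Agent.Work.MP_dd0251_mp
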